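import Mathlib

/-! # The real variable core: one-sided bounds on windows and a lower bound for long averages -/

set_option autoImplicit false

open MeasureTheory Filter Topology

namespace Pool.Agent.W2helper22.UB

/-- the primitive of `min |u| 1` -/
noncomputable def Mp (s : ℝ) : ℝ := ∫ u in (0 : ℝ)..s, min |u| 1

/-- the predicted primitive of Montgomery's function -/
noncomputable def Pg (s : ℝ) : ℝ := Mp s + Real.sign s / 2

lemma mn_cont : Continuous fun u : ℝ => min |u| 1 := by fun_prop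

lemma mn_int (a b : ℝ) : IntervalIntegrable (fun u : ℝ => min |u| 1) volume a b :=
  mn_cont.intervalIntegrable a b

lemma Mp_sub (a b : ℝ) : Mp b - Mp a = ∫ u in a..b, min |u| 1 := by
  unfold Mp
  exact intervalIntegral.integral_interval_sub_left (mn_int _ _) (mn_int _ _)

lemma Mp_deriv (x : ℝ) : HasDerivAt Mp (min |x| 1) x :=
  intervalIntegral.integral_hasDerivAt_right (mn_int _ _)
    (mn_cont.stronglyMeasurableAtFilter _ _) mn_cont.continuousAt

lemma Mp_cont : Continuous Mp := continuous_iff_continuousAt.2 fun x => (Mp_deriv x).continuousAt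

lemma Mp_zero : Mp 0 = 0 := by unfold Mp; simp

lemma Mp_mono : Monotone Mp := by
  intro a b hab
  have h := Mp_sub a b
  have h2 : 0 ≤ ∫ u in a..b, min |u| 1 :=
    intervalIntegral.integral_nonneg hab fun u _ => le_min (abs_nonneg _) zero_le_one
  linarith

lemma Mp_lip {a b : ℝ} (hab : a ≤ b) : Mp b - Mp a ≤ b - a := by
  rw [Mp_sub]
  have := intervalIntegral.integral_mono_on hab (mn_int a b)
    (intervalIntegrable_const : IntervalIntegrable (fun _ => (1 : ℝ)) volume a b)
    fun u _ => min_le_right _ _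
  simpa using this

lemma Mp_odd (s : ℝ) : Mp (-s) = -Mp s := by
  have h1 := Mp_sub (-s) 0
  have h2 : ∫ u in (-s)..0, min |u| 1 = ∫ u in (0 : ℝ)..s, min |u| 1 := by
    have := intervalIntegral.integral_comp_neg (a := 0) (b := s) (fun u : ℝ => min |u| 1)
    rw [neg_zero] at this
    rw [← this]
    refine intervalIntegral.integral_congr fun u _ => ?_
    show min |(-u)| 1 = min |u| 1
    rw [abs_neg]
  rw [h2, Mp_zero] at h1
  have h3 : Mp s = ∫ u in (0 : ℝ)..s, min |u| 1 := rfl
  linarith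

lemma Mp_small {s : ℝ} (h0 : 0 ≤ s) (h1 : s ≤ 1) : Mp s = s ^ 2 / 2 := by
  unfold Mp
  have : ∫ u in (0 : ℝ)..s, min |u| 1 = ∫ u in (0 : ℝ)..s, u := by
    refine intervalIntegral.integral_congr fun u hu => ?_
    rw [Set.uIcc_of_le h0] at hu
    show min |u| 1 = u
    rw [abs_of_nonneg hu.1, min_eq_left (hu.2.trans h1)]
  rw [this, integral_id]
  ring

lemma Mp_large {s : ℝ} (h1 : 1 ≤ s) : Mp s = s - 1 / 2 := by
  have h := Mp_sub 1 s
  have : ∫ u in (1 : ℝ)..s, min |u| 1 = ∫ _u in (1 : ℝ)..s, (1 : ℝ) := by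
    refine intervalIntegral.integral_congr fun u hu => ?_
    rw [Set.uIcc_of_le h1] at hu
    show min |u| 1 = 1
    rw [abs_of_nonneg (by linarith [hu.1]), min_eq_right hu.1]
  rw [this, Mp_small zero_le_one le_rfl] at h
  simp only [intervalIntegral.integral_const, smul_eq_mul, mul_one] at h
  linarith

lemma Pg_pos {s : ℝ} (hs : 0 < s) : Pg s = Mp s + 1 / 2 := by
  unfold Pg
  rw [Real.sign_of_pos hs]

lemma Pg_zero : Pg 0 = 0 := by
  unfold Pg
  rw [Real.sign_zero, Mp_zero]
  norm_num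

lemma Pg_odd (s : ℝ) : Pg (-s) = -Pg s := by
  unfold Pg
  rw [Mp_odd, Real.sign_neg]
  ring

lemma Pg_mono : Monotone Pg := by
  intro a b hab
  unfold Pg
  have h1 := Mp_mono hab
  have h2 : Real.sign a ≤ Real.sign b := by
    rcases lt_trichotomy a 0 with ha | rfl | ha
    · rw [Real.sign_of_neg ha]
      rcases Real.sign_apply_eq b with h | h | h <;> rw [h] <;> norm_num
    · rcases hab.eq_or_lt with rfl | hb
      · exact le_rfl
      · rw [Real.sign_of_pos hb, Real.sign_zero]
        exact zero_le_one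
    · rw [Real.sign_of_pos ha, Real.sign_of_pos (ha.trans_le hab)]
  linarith

lemma Pg_int (a b : ℝ) : IntervalIntegrable Pg volume a b := Pg_mono.intervalIntegrable

/-- the average of the prediction -/
lemma Pg_avg {A : ℝ} (hA : 1 ≤ A) : ∫ s in (0 : ℝ)..A, Pg s ≤ A ^ 2 / 2 + 1 / 6 := by
  rw [← intervalIntegral.integral_add_adjacent_intervals (Pg_int 0 1) (Pg_int 1 A)]
  have h1 : ∫ s in (0 : ℝ)..1, Pg s ≤ ∫ s in (0 : ℝ)..1, (s ^ 2 / 2 + 1 / 2) := by
    refine intervalIntegral.integral_mono_on zero_le_one (Pg_int 0 1)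
      ((by fun_prop : Continuous fun s : ℝ => s ^ 2 / 2 + 1 / 2).intervalIntegrable _ _)
      fun s hs => ?_
    rcases hs.1.eq_or_lt with h | h
    · rw [← h, Pg_zero]
      norm_num
    · rw [Pg_pos h, Mp_small hs.1 hs.2]
  have h2 : ∫ s in (0 : ℝ)..1, (s ^ 2 / 2 + 1 / 2 : ℝ) = 2 / 3 := by
    rw [intervalIntegral.integral_add
      ((by fun_prop : Continuous fun s : ℝ => s ^ 2 / 2).intervalIntegrable _ _)
      intervalIntegrable_const, intervalIntegral.integral_div, integral_pow]
    simp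
    norm_num
  have h3 : ∫ s in (1 : ℝ)..A, Pg s = ∫ s in (1 : ℝ)..A, s := by
    refine intervalIntegral.integral_congr fun s hs => ?_
    rw [Set.uIcc_of_le hA] at hs
    show Pg s = s
    rw [Pg_pos (by linarith [hs.1]), Mp_large hs.1]
    ring
  rw [h3, integral_id]
  linarith

lemma Pg_avg' {A : ℝ} (hA : 1 ≤ A) : A ^ 2 / 2 ≤ ∫ s in (0 : ℝ)..A, Pg s := by
  rw [← intervalIntegral.integral_add_adjacent_intervals (Pg_int 0 1) (Pg_int 1 A)]
  have h1 : ∫ _s in (0 : ℝ)..1, (1 / 2 : ℝ) ≤ ∫ s in (0 : ℝ)..1, Pg s := by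
    refine intervalIntegral.integral_mono_on_of_le_Ioo zero_le_one intervalIntegrable_const
      (Pg_int 0 1) fun s hs => ?_
    rw [Pg_pos hs.1, Mp_small hs.1.le hs.2.le]
    nlinarith [sq_nonneg s]
  have h3 : ∫ s in (1 : ℝ)..A, Pg s = ∫ s in (1 : ℝ)..A, s := by
    refine intervalIntegral.integral_congr fun s hs => ?_
    rw [Set.uIcc_of_le hA] at hs
    show Pg s = s
    rw [Pg_pos (by linarith [hs.1]), Mp_large hs.1]
    ring
  simp only [intervalIntegral.integral_const, smul_eq_mul] at h1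
  rw [h3, integral_id]
  linarith

lemma Pg_contAt {x : ℝ} (hx : 0 < x) : ContinuousAt Pg x := by
  have : Pg =ᶠ[𝓝 x] fun x => Mp x + 1 / 2 := by
    filter_upwards [lt_mem_nhds hx] with y hy
    exact Pg_pos hy
  exact (Mp_cont.continuousAt.add continuousAt_const).congr this.symm

lemma Pg_contAt' {x : ℝ} (hx : x ≠ 0) : ContinuousAt Pg x := by
  rcases lt_or_gt_of_ne hx with h | h
  · have h1 : ContinuousAt (fun y => -Pg (-y)) x := by
      have h2 : ContinuousAt (fun y : ℝ => -y) x := continuous_neg.continuousAt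
      have h3 : ContinuousAt Pg (-x) := Pg_contAt (by linarith)
      exact (ContinuousAt.comp (g := Pg) (f := fun y : ℝ => -y) h3 h2).neg
    refine h1.congr (Eventually.of_forall fun y => ?_)
    show -Pg (-y) = Pg y
    rw [Pg_odd, neg_neg]
  · exact Pg_contAt h

/-- **rigidity**: an odd function with `G (a + ℓ) ≤ G a` whose primitive is not very negative is
periodic -/
theorem periodic {G : ℝ → ℝ} (hodd : ∀ s, G (-s) = -G s)
    (hint : ∀ a b, IntervalIntegrable G volume a b) {ℓ : ℝ} (hℓ : 0 < ℓ)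
    (hu : ∀ᵐ a, G (a + ℓ) ≤ G a)
    (hV : ∀ c, 0 < c → ∀ A0 : ℝ, ∃ A, A0 ≤ A ∧ -(c * A) < ∫ s in (0 : ℝ)..A, G s) :
    ∀ᵐ a, G (a + ℓ) = G a := by
  set V : ℝ → ℝ := fun s => ∫ x in (0 : ℝ)..s, G x with hVdef
  have hVsub : ∀ a b, V b - V a = ∫ x in a..b, G x := fun a b =>
    intervalIntegral.integral_interval_sub_left (hint _ _) (hint _ _)
  have hVeven : ∀ s, V (-s) = V s := by
    intro s
    have h3 := intervalIntegral.integral_comp_neg (a := -s) (b := s) G
    rw [neg_neg] at h3
    have h4 : ∫ x in (-s)..s, G (-x) = -∫ x in (-s)..s, G x := by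
      rw [← intervalIntegral.integral_neg]
      exact intervalIntegral.integral_congr fun x _ => hodd x
    have h5 := hVsub (-s) s
    rw [h4] at h3
    linarith
  have hVcont : Continuous V := intervalIntegral.continuous_primitive hint 0
  set u : ℝ → ℝ := fun a => G (a + ℓ) - G a with hudef
  have huint : ∀ a b, IntervalIntegrable u volume a b := by
    intro a b
    have h1 := (hint (a + ℓ) (b + ℓ)).comp_add_right ℓ
    simp only [add_sub_cancel_right] at h1
    exact h1.sub (hint a b)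
  have hU : ∀ s, ∫ a in (-s)..s, u a = V (s + ℓ) - V (s - ℓ) := by
    intro s
    have h1 : ∫ a in (-s)..s, u a = (∫ a in (-s)..s, G (a + ℓ)) - ∫ a in (-s)..s, G a := by
      refine intervalIntegral.integral_sub ?_ (hint _ _)
      have h1 := (hint (-s + ℓ) (s + ℓ)).comp_add_right ℓ
      simpa only [add_sub_cancel_right] using h1
    rw [h1, intervalIntegral.integral_comp_add_right, ← hVsub, ← hVsub, hVeven,
      show -s + ℓ = -(s - ℓ) by ring, hVeven]
    ring
  have hu0 : ∀ᵐ a, u a ≤ 0 := hu.mono fun a ha => by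
    show G (a + ℓ) - G a ≤ 0
    linarith
  have hUmono : ∀ s t, 0 ≤ s → s ≤ t → ∫ a in (-t)..t, u a ≤ ∫ a in (-s)..s, u a := by
    intro s t hs hst
    have h1 : ∫ a in (-t)..t, u a = (∫ a in (-t)..(-s), u a) + ((∫ a in (-s)..s, u a) +
        ∫ a in s..t, u a) := by
      rw [intervalIntegral.integral_add_adjacent_intervals (huint _ _) (huint _ _),
        intervalIntegral.integral_add_adjacent_intervals (huint _ _) (huint _ _)]
    have h2 : ∀ a b, a ≤ b → ∫ x in a..b, u x ≤ 0 := by
      intro a b hab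
      have h3 := intervalIntegral.integral_mono_ae hab (huint a b)
        (intervalIntegrable_const : IntervalIntegrable (fun _ => (0 : ℝ)) volume a b) hu0
      simpa using h3
    have h3 := h2 (-t) (-s) (by linarith)
    have h4 := h2 s t hst
    linarith
  have hUle : ∀ s, 0 ≤ s → ∫ a in (-s)..s, u a ≤ 0 := by
    intro s hs
    have := hUmono 0 s le_rfl hs
    simpa using this
  -- the integrals vanish
  have hU0 : ∀ s, 0 ≤ s → ∫ a in (-s)..s, u a = 0 := by
    intro s0 hs0
    by_contra hne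
    have hc0 : ∫ a in (-s0)..s0, u a < 0 := lt_of_le_of_ne (hUle s0 hs0) hne
    set c := -∫ a in (-s0)..s0, u a with hc
    have hcpos : 0 < c := by rw [hc]; linarith
    have hstep : ∀ s, s0 ≤ s → V (s + ℓ) ≤ V (s - ℓ) - c := by
      intro s hs
      have h1 := hUmono s0 s hs0 hs
      rw [hU s] at h1
      rw [hc]
      linarith
    have hiter : ∀ n : ℕ, ∀ t, s0 ≤ t → V (t + 2 * n * ℓ) ≤ V t - n * c := by
      intro n
      induction n with
      | zero => intro t _; simp
      | succ n ih =>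
        intro t ht
        have h1 := ih t ht
        have h2 := hstep (t + 2 * n * ℓ + ℓ) (by
          have : (0 : ℝ) ≤ 2 * n * ℓ := by positivity
          linarith)
        rw [add_sub_cancel_right] at h2
        push_cast
        have e : t + 2 * ((n : ℝ) + 1) * ℓ = t + 2 * n * ℓ + ℓ + ℓ := by ring
        rw [e]
        linarith
    obtain ⟨B, hB⟩ := (isCompact_Icc (a := s0) (b := s0 + 2 * ℓ)).bddAbove_image
      hVcont.continuousOn
    have hB' : ∀ t, s0 ≤ t → t ≤ s0 + 2 * ℓ → V t ≤ B := fun t h1 h2 =>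
      hB ⟨t, ⟨h1, h2⟩, rfl⟩
    have hlin : ∀ A, s0 ≤ A → V A ≤ B - c * ((A - s0) / (2 * ℓ) - 1) := by
      intro A hA
      set n := ⌊(A - s0) / (2 * ℓ)⌋₊ with hn
      have hq : 0 ≤ (A - s0) / (2 * ℓ) := div_nonneg (by linarith) (by linarith)
      have h1 : (n : ℝ) ≤ (A - s0) / (2 * ℓ) := Nat.floor_le hq
      have h2 : (A - s0) / (2 * ℓ) < n + 1 := Nat.lt_floor_add_one _
      rw [le_div_iff₀ (by positivity)] at h1
      have h2' := h2
      rw [div_lt_iff₀ (by positivity)] at h2
      have h3 := hiter n (A - 2 * n * ℓ) (by linarith)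
      rw [sub_add_cancel] at h3
      have h4 := hB' (A - 2 * n * ℓ) (by linarith) (by linarith)
      have h5 : c * ((A - s0) / (2 * ℓ) - 1) ≤ n * c := by
        rw [mul_comm (n : ℝ)]
        exact mul_le_mul_of_nonneg_left (by linarith) hcpos.le
      linarith
    obtain ⟨A, hA1, hA2⟩ := hV (c / (4 * ℓ)) (by positivity)
      (max s0 ((B + c * (s0 / (2 * ℓ) + 1)) * (4 * ℓ) / c))
    have hA3 := hlin A ((le_max_left _ _).trans hA1)
    have hA4 : (B + c * (s0 / (2 * ℓ) + 1)) * (4 * ℓ) / c ≤ A := (le_max_right _ _).trans hA1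
    rw [div_le_iff₀ hcpos] at hA4
    have e1 : c * ((A - s0) / (2 * ℓ) - 1) = 2 * (c / (4 * ℓ) * A) - c * (s0 / (2 * ℓ) + 1) := by
      field_simp
      ring
    rw [e1] at hA3
    have e2 : B + c * (s0 / (2 * ℓ) + 1) ≤ c / (4 * ℓ) * A := by
      rw [div_mul_eq_mul_div, le_div_iff₀ (by positivity)]
      linarith
    have hA5 : -(c / (4 * ℓ) * A) < V A := hA2
    linarith
  have hn : ∀ n : ℕ, ∀ᵐ a, a ∈ Set.Ioc (-(n : ℝ)) n → u a = 0 := by
    intro n
    have h1 := hU0 n (Nat.cast_nonneg n)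
    have h2 : ∫ a in (-(n : ℝ))..n, -u a = 0 := by
      rw [intervalIntegral.integral_neg, h1, neg_zero]
    have h3 := (intervalIntegral.integral_eq_zero_iff_of_le_of_nonneg_ae
      (f := fun a => -u a) (a := -(n : ℝ)) (b := n) (by
      have : (0 : ℝ) ≤ n := Nat.cast_nonneg n
      linarith) (ae_restrict_of_ae (hu0.mono fun a ha => by
        show 0 ≤ -u a
        linarith)) (huint _ _).neg).1 h2
    rw [EventuallyEq, ae_restrict_iff' measurableSet_Ioc] at h3
    filter_upwards [h3] with a ha haa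
    have h3 : -u a = 0 := ha haa
    linarith
  filter_upwards [ae_all_iff.2 hn] with a ha
  obtain ⟨n, hn⟩ := exists_nat_gt |a|
  obtain ⟨h1, h2⟩ := abs_lt.1 hn
  have h3 : G (a + ℓ) - G a = 0 := ha n ⟨h1, h2.le⟩
  linarith

end Pool.Agent.W2helper22.UB
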