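import Pool.Agent.Y744.PCR.ConnB

/-! # The averaged transforms are test functions, and all test functions are of this form -/

set_option autoImplicit false

open MeasureTheory Filter Topology Real
open scoped ContDiff
open Pool.Agent.Y744

namespace Pool.Agent.W2helper22.UB

lemma sinc_analytic (x : ℝ) : AnalyticAt ℝ Real.sinc x := by
  rcases eq_or_ne x 0 with rfl | hx
  · rw [Real.sinc_eq_dslope]
    obtain ⟨p, hp⟩ := (Real.analyticAt_sin (x := 0))
    exact ⟨_, hp.has_fpower_series_dslope_fslope⟩
  · have h1 : AnalyticAt ℝ (fun y => Real.sin y / y) x := Real.analyticAt_sin.div analyticAt_id hx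
    refine h1.congr ?_
    filter_upwards [isOpen_ne.mem_nhds hx] with y hy
    rw [Real.sinc_of_ne_zero hy]

lemma sinc_smooth : ContDiff ℝ ∞ Real.sinc :=
  contDiff_iff_contDiffAt.2 fun x => (sinc_analytic x).contDiffAt

variable {κ : ℝ} {K : ℝ → ℝ} {h : ℝ}

/-- the transforms of the averages are test functions -/
lemma Kav_TK (hK : TK κ K) (h : ℝ) : TK κ (Kav K h) where
  smooth := by
    have h1 := hK.smooth
    have h2 := sinc_smooth
    unfold Kav
    exact h1.mul (contDiff_const.mul (h2.comp (contDiff_const.mul contDiff_id)))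
  even := Kav_even hK
  supp := Kav_supp hK

lemma sinc_pos {x : ℝ} (hx : |x| < π) : 0 < Real.sinc x := by
  have h0 : ∀ x : ℝ, 0 < x → x < π → 0 < Real.sinc x := by
    intro x hx hx1
    rw [Real.sinc_of_ne_zero hx.ne']
    exact div_pos (Real.sin_pos_of_pos_of_lt_pi hx hx1) hx
  obtain ⟨h1, h2⟩ := abs_lt.1 hx
  rcases lt_trichotomy x 0 with h | rfl | h
  · have := h0 (-x) (by linarith) (by linarith)
    rwa [Real.sinc_neg] at this
  · rw [Real.sinc_zero]
    exact one_pos
  · exact h0 x h h2

/-- every test function is the transform of an average -/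
lemma exists_Kav {ψ : ℝ → ℝ} (hκ : 0 < κ) (hψ : TK κ ψ) :
    ∃ K h, 0 < h ∧ TK κ K ∧ Kav K h = ψ := by
  set h : ℝ := 1 / (4 * κ) with hh
  have hh0 : 0 < h := by positivity
  have hpi := Real.pi_pos
  have hlt : ∀ α : ℝ, |α| < 2 * κ → |2 * π * h * α| < π := by
    intro α hα
    rw [abs_mul, abs_of_pos (by positivity : 0 < 2 * π * h), hh]
    have e : 2 * π * (1 / (4 * κ)) * |α| = π * (|α| / (2 * κ)) := by
      field_simp
      ring
    rw [e]
    have : |α| / (2 * κ) < 1 := by rwa [div_lt_one (by positivity)]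
    nlinarith
  refine ⟨fun α => ψ α / (2 * h * Real.sinc (2 * π * h * α)), h, hh0, ⟨?_, ?_, ?_⟩, ?_⟩
  · rw [contDiff_iff_contDiffAt]
    intro α
    rcases lt_or_ge |α| (2 * κ) with hα | hα
    · refine hψ.smooth.contDiffAt.div ?_ ?_
      · exact (contDiff_const.mul (sinc_smooth.comp (contDiff_const.mul contDiff_id))).contDiffAt
      · have := sinc_pos (hlt α hα)
        positivity
    · have h1 : (fun α => ψ α / (2 * h * Real.sinc (2 * π * h * α))) =ᶠ[𝓝 α] fun _ => (0 : ℝ) := by
        have h2 : ∀ᶠ y in 𝓝 α, κ < |y| := continuous_abs.continuousAt.eventually_const_lt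
          (by linarith)
        filter_upwards [h2] with y hy
        rw [hψ.supp y hy, zero_div]
      exact contDiffAt_const.congr_of_eventuallyEq h1
  · intro x
    show ψ (-x) / (2 * h * Real.sinc (2 * π * h * -x)) = ψ x / (2 * h * Real.sinc (2 * π * h * x))
    rw [hψ.even, mul_neg, Real.sinc_neg]
  · intro x hx
    show ψ x / _ = 0
    rw [hψ.supp x hx, zero_div]
  · funext α
    show ψ α / (2 * h * Real.sinc (2 * π * h * α)) * (2 * h * Real.sinc (2 * π * h * α)) = ψ α
    rcases lt_or_ge |α| (2 * κ) with hα | hα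
    · have h3 := sinc_pos (hlt α hα)
      exact div_mul_cancel₀ _ (by positivity)
    · rw [hψ.supp α (by linarith), zero_div, zero_mul]

end Pool.Agent.W2helper22.UB
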