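import Pool.Agent.Results.MP_103a5c_nt.LongAverages
import Pool.Agent.Y744.PCR.Glue
import Pool.Agent.W2helper22.UB.Sinc

/-! # Montgomery's function at a finite height -/

set_option autoImplicit false

open MeasureTheory Filter Topology Real
open Pool.Agent.Y744

namespace Pool.Agent.W2helper22.UB

/-- Montgomery's weight as a function of the normalised difference -/
noncomputable def wt (T x : ℝ) : ℝ := 4 / (4 + (2 * π * x / Real.log T) ^ 2)

lemma wt_nonneg (T x : ℝ) : 0 ≤ wt T x := by unfold wt; positivity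

lemma wt_le (T x : ℝ) : wt T x ≤ 1 := by
  unfold wt
  rw [div_le_one (by positivity)]
  nlinarith [sq_nonneg (2 * π * x / Real.log T)]

/-- Montgomery's function -/
noncomputable def FT (T α : ℝ) : ℝ := (Xf T)⁻¹ * ∑ s ∈ Zt T, ∑ s' ∈ Zt T, mz s * mz s' *
  (wt T (dd T s s') * Real.cos (2 * π * dd T s s' * α))

open Pool.Agent.Results.MP_103a5c_nt in
lemma FT_eq (α : ℝ) {T : ℝ} (hT : 1 < T) : (LongAverages.F α T).re = FT T α := by
  classical
  have hT0 : 0 < T := by linarith
  have hL := Real.log_pos hT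
  have hpi := Real.pi_pos
  unfold LongAverages.F FT
  rw [← Complex.ofReal_inv, Complex.re_ofReal_mul]
  have eX : T / (2 * Real.pi) * Real.log T = Xf T := by unfold Xf; ring
  rw [eX]
  congr 1
  have hfe : (LongAverages.zeros_finite T).toFinset = Zt T := by
    ext s
    rw [Set.Finite.mem_toFinset, mem_Zt]
    rfl
  rw [finsum_mem_eq_finite_toFinset_sum _ (LongAverages.zeros_finite T), hfe, Complex.re_sum]
  refine Finset.sum_congr rfl fun s _ => ?_
  rw [finsum_mem_eq_finite_toFinset_sum _ (LongAverages.zeros_finite T), hfe, Complex.re_sum]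
  refine Finset.sum_congr rfl fun s' _ => ?_
  have h := LongAverages.re_term T α (s.im - s'.im) (mz s) (mz s') hT0
  have e1 : LongAverages.W (s.im - s'.im) = wt T (dd T s s') := by
    unfold LongAverages.W wt dd
    congr 3
    field_simp
  have e2 : Real.log T * (s.im - s'.im) * α = 2 * π * dd T s s' * α := by
    unfold dd
    field_simp
  rw [e1, e2] at h
  have h' : ((LongAverages.mult s : ℂ) * (LongAverages.mult s' : ℂ) *
      ((T : ℂ) ^ (Complex.I * α * ((s.im - s'.im : ℝ) : ℂ)) *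
        (4 / (4 + ((s.im - s'.im : ℝ) : ℂ) ^ 2)))).re = mz s * mz s' * wt T (dd T s s') *
      Real.cos (2 * π * dd T s s' * α) := by
    rw [← h]
    congr 3
  rw [h']
  ring

lemma FT_nonneg (RH : RiemannHypothesis) (α : ℝ) {T : ℝ} (hT : 1 < T) : 0 ≤ FT T α := by
  rw [← FT_eq α hT]
  exact (Pool.Agent.Results.MP_103a5c_nt.LongAverages.F_im RH α T hT).2

lemma FT_cont (T : ℝ) : Continuous (FT T) := by
  unfold FT
  fun_prop

lemma FT_even (T α : ℝ) : FT T (-α) = FT T α := by
  unfold FT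
  congr 1
  refine Finset.sum_congr rfl fun s _ => Finset.sum_congr rfl fun s' _ => ?_
  rw [mul_neg, Real.cos_neg]

lemma FT_int (T a b : ℝ) : IntervalIntegrable (FT T) volume a b :=
  (FT_cont T).intervalIntegrable a b

/-- its primitive -/
noncomputable def Ph (T s : ℝ) : ℝ := ∫ α in (0 : ℝ)..s, FT T α

lemma Ph_sub (T a b : ℝ) : Ph T b - Ph T a = ∫ α in a..b, FT T α := by
  unfold Ph
  exact intervalIntegral.integral_interval_sub_left (FT_int _ _ _) (FT_int _ _ _)

lemma Ph_deriv (T x : ℝ) : HasDerivAt (Ph T) (FT T x) x :=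
  intervalIntegral.integral_hasDerivAt_right (FT_int _ _ _)
    ((FT_cont T).stronglyMeasurableAtFilter _ _) (FT_cont T).continuousAt

lemma Ph_cont (T : ℝ) : Continuous (Ph T) :=
  continuous_iff_continuousAt.2 fun x => (Ph_deriv T x).continuousAt

lemma Ph_zero (T : ℝ) : Ph T 0 = 0 := by unfold Ph; simp

lemma Ph_mono (RH : RiemannHypothesis) {T : ℝ} (hT : 1 < T) : Monotone (Ph T) := by
  intro a b hab
  have h := Ph_sub T a b
  have h2 : 0 ≤ ∫ α in a..b, FT T α :=
    intervalIntegral.integral_nonneg hab fun α _ => FT_nonneg RH α hT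
  linarith

lemma Ph_odd (T s : ℝ) : Ph T (-s) = -Ph T s := by
  have h1 := Ph_sub T (-s) 0
  have h2 : ∫ α in (-s)..0, FT T α = ∫ α in (0 : ℝ)..s, FT T α := by
    have := intervalIntegral.integral_comp_neg (a := 0) (b := s) (FT T)
    rw [neg_zero] at this
    rw [← this]
    exact intervalIntegral.integral_congr fun α _ => FT_even T α
  rw [h2, Ph_zero] at h1
  have h3 : Ph T s = ∫ α in (0 : ℝ)..s, FT T α := rfl
  linarith

/-- growth of the primitive -/
lemma Ph_bound (RH : RiemannHypothesis) : ∃ C T0 : ℝ, 1 < T0 ∧ ∀ T : ℝ, T0 ≤ T → ∀ s,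
    |Ph T s| ≤ C * (1 + s ^ 2) := by
  obtain ⟨l0, K, T0, hK, h⟩ := Pool.Agent.Results.MP_103a5c_nt.LongAverages.result RH
  refine ⟨2 * (|l0| + 1), max T0 2, by
    have := le_max_right T0 2
    linarith, fun T hT s => ?_⟩
  have hT1 : 1 < T := by
    have := (le_max_right T0 2).trans hT
    linarith
  have hT0 : T0 ≤ T := (le_max_left T0 2).trans hT
  have key : ∀ s, 0 ≤ s → |Ph T s| ≤ 2 * (|l0| + 1) * (1 + s ^ 2) := by
    intro s hs
    have h1 := ((h T hT0).2 0 (s + |l0|) (by
      have := le_abs_self l0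
      linarith)).2.1
    have h2 : ∫ α in (0 : ℝ)..(0 + (s + |l0|)),
        (Pool.Agent.Results.MP_103a5c_nt.LongAverages.F α T).re = Ph T (s + |l0|) := by
      rw [zero_add]
      exact intervalIntegral.integral_congr fun α _ => FT_eq α hT1
    rw [h2] at h1
    have h3 := Ph_mono RH hT1 (show s ≤ s + |l0| by linarith [abs_nonneg l0])
    have h4 := Ph_mono RH hT1 hs
    rw [Ph_zero] at h4
    rw [abs_of_nonneg h4]
    have h5 := abs_nonneg l0
    have h6 : s ≤ 1 + s ^ 2 := by nlinarith [sq_nonneg (s - 1)]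
    have h7 : 0 ≤ |l0| * s ^ 2 := by positivity
    nlinarith
  rcases le_total 0 s with hs | hs
  · exact key s hs
  · have := key (-s) (by linarith)
    rw [Ph_odd, abs_neg, neg_sq] at this
    exact this

lemma int_lin (A : ℝ) : ∫ α in (0 : ℝ)..A, (A - α) = A ^ 2 / 2 := by
  have h := intervalIntegral.integral_sub (μ := volume) (a := 0) (b := A) (f := fun _ => A)
    (g := fun α : ℝ => α) intervalIntegrable_const (continuous_id'.intervalIntegrable _ _)
  rw [h, integral_id]
  simp only [intervalIntegral.integral_const, smul_eq_mul]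
  ring

/-- an elementary integral -/
lemma tri_cos (A c : ℝ) : 0 ≤ ∫ α in (0 : ℝ)..A, (A - α) * Real.cos (c * α) := by
  rcases eq_or_ne c 0 with rfl | hc
  · have : ∫ α in (0 : ℝ)..A, (A - α) * Real.cos (0 * α) = ∫ α in (0 : ℝ)..A, (A - α) := by
      refine intervalIntegral.integral_congr fun α _ => ?_
      show (A - α) * Real.cos (0 * α) = A - α
      rw [zero_mul, Real.cos_zero, mul_one]
    rw [this, int_lin]
    positivity
  · have hd : ∀ α ∈ Set.uIcc (0 : ℝ) A, HasDerivAt
        (fun α => (A - α) * Real.sin (c * α) / c - Real.cos (c * α) / c ^ 2)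
        ((A - α) * Real.cos (c * α)) α := by
      intro α _
      have h1 : HasDerivAt (fun α : ℝ => A - α) (-1) α := by
        simpa using (hasDerivAt_id α).const_sub A
      have h2 : HasDerivAt (fun α : ℝ => c * α) c α := by
        simpa using (hasDerivAt_id α).const_mul c
      have h3 : HasDerivAt (fun α => (A - α) * Real.sin (c * α))
          ((-1) * Real.sin (c * α) + (A - α) * (Real.cos (c * α) * c)) α := h1.mul h2.sin
      have h4 : HasDerivAt (fun α => (A - α) * Real.sin (c * α) / c -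
          Real.cos (c * α) / c ^ 2) (((-1) * Real.sin (c * α) +
            (A - α) * (Real.cos (c * α) * c)) / c - (-Real.sin (c * α) * c) / c ^ 2) α :=
        (h3.div_const c).sub (h2.cos.div_const (c ^ 2))
      refine h4.congr_deriv ?_
      field_simp
      ring
    rw [intervalIntegral.integral_eq_sub_of_hasDerivAt hd
      ((by fun_prop : Continuous fun α : ℝ => (A - α) * Real.cos (c * α)).intervalIntegrable _ _)]
    simp only [sub_self, zero_mul, zero_div, mul_zero, Real.sin_zero, Real.cos_zero]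
    have h4 := Real.cos_le_one (c * A)
    have h5 : 0 < c ^ 2 := by positivity
    have h6 : 0 ≤ (1 - Real.cos (c * A)) / c ^ 2 := div_nonneg (by linarith) h5.le
    have h7 : (1 - Real.cos (c * A)) / c ^ 2 = 1 / c ^ 2 - Real.cos (c * A) / c ^ 2 := by ring
    linarith

lemma tri_one (A : ℝ) : ∫ α in (0 : ℝ)..A, (A - α) * Real.cos (2 * π * 0 * α) = A ^ 2 / 2 := by
  have : ∫ α in (0 : ℝ)..A, (A - α) * Real.cos (2 * π * 0 * α) = ∫ α in (0 : ℝ)..A, (A - α) := by
    refine intervalIntegral.integral_congr fun α _ => ?_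
    show (A - α) * Real.cos (2 * π * 0 * α) = A - α
    rw [mul_zero, zero_mul, Real.cos_zero, mul_one]
  rw [this, int_lin]

/-- the average of the primitive -/
lemma Ph_avg (T A : ℝ) : ∫ s in (0 : ℝ)..A, Ph T s = ∫ α in (0 : ℝ)..A, (A - α) * FT T α := by
  have h := intervalIntegral.integral_mul_deriv_eq_deriv_mul (a := 0) (b := A)
    (u := fun s => s - A) (v := Ph T) (u' := fun _ => 1) (v' := FT T)
    (fun x _ => by simpa using (hasDerivAt_id x).sub_const A) (fun x _ => Ph_deriv T x)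
    intervalIntegrable_const (FT_int T _ _)
  rw [Ph_zero, sub_self, zero_mul, mul_zero, sub_zero, zero_sub] at h
  have h2 : ∫ s in (0 : ℝ)..A, 1 * Ph T s = ∫ s in (0 : ℝ)..A, Ph T s :=
    intervalIntegral.integral_congr fun s _ => one_mul _
  rw [h2] at h
  have h3 : ∫ α in (0 : ℝ)..A, (A - α) * FT T α = -∫ α in (0 : ℝ)..A, (α - A) * FT T α := by
    rw [← intervalIntegral.integral_neg]
    refine intervalIntegral.integral_congr fun α _ => ?_
    show (A - α) * FT T α = -((α - A) * FT T α)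
    ring
  rw [h3, h, neg_neg]

/-- **the lower bound for the average of the primitive** -/
lemma Ph_lower (A : ℝ) {ε : ℝ} (hε : 0 < ε) : ∀ᶠ T in atTop,
    A ^ 2 / 2 * (1 - ε) ≤ ∫ s in (0 : ℝ)..A, Ph T s := by
  classical
  obtain ⟨T0, hT0, h⟩ := Pool.Agent.W54.TCF.NT_asymp' ε hε
  filter_upwards [eventually_ge_atTop T0] with T hT
  have hT1 : 1 < T := by linarith
  have hX := Xf_pos hT1
  have h1 := (h T hT).1
  rw [Ph_avg]
  have e1 : ∫ α in (0 : ℝ)..A, (A - α) * FT T α = (Xf T)⁻¹ * ∑ s ∈ Zt T, ∑ s' ∈ Zt T,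
      mz s * mz s' * (wt T (dd T s s') *
        ∫ α in (0 : ℝ)..A, (A - α) * Real.cos (2 * π * dd T s s' * α)) := by
    have e2 : ∀ α, (A - α) * FT T α = (Xf T)⁻¹ * ∑ s ∈ Zt T, ∑ s' ∈ Zt T,
        mz s * mz s' * (wt T (dd T s s') * ((A - α) * Real.cos (2 * π * dd T s s' * α))) := by
      intro α
      unfold FT
      rw [mul_left_comm, Finset.mul_sum]
      congr 1
      refine Finset.sum_congr rfl fun s _ => ?_
      rw [Finset.mul_sum]
      refine Finset.sum_congr rfl fun s' _ => ?_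
      ring
    simp_rw [e2]
    rw [intervalIntegral.integral_const_mul, intervalIntegral.integral_finsetSum (fun s _ =>
      (by fun_prop : Continuous fun α => ∑ s' ∈ Zt T, mz s * mz s' * (wt T (dd T s s') *
        ((A - α) * Real.cos (2 * π * dd T s s' * α)))).intervalIntegrable _ _)]
    congr 1
    refine Finset.sum_congr rfl fun s _ => ?_
    rw [intervalIntegral.integral_finsetSum (fun s' _ =>
      (by fun_prop : Continuous fun α => mz s * mz s' * (wt T (dd T s s') *
        ((A - α) * Real.cos (2 * π * dd T s s' * α)))).intervalIntegrable _ _)]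
    refine Finset.sum_congr rfl fun s' _ => ?_
    rw [intervalIntegral.integral_const_mul, intervalIntegral.integral_const_mul]
  rw [e1, le_inv_mul_iff₀ hX]
  have h2 : A ^ 2 / 2 * (H370.NN riemannZeta 0 T : ℝ) ≤ ∑ s ∈ Zt T, ∑ s' ∈ Zt T,
      mz s * mz s' * (wt T (dd T s s') *
        ∫ α in (0 : ℝ)..A, (A - α) * Real.cos (2 * π * dd T s s' * α)) := by
    rw [← sum_Zt, Finset.mul_sum]
    refine Finset.sum_le_sum fun s hs => ?_
    have h3 : A ^ 2 / 2 * mz s ≤ mz s * mz s * (wt T (dd T s s) *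
        ∫ α in (0 : ℝ)..A, (A - α) * Real.cos (2 * π * dd T s s * α)) := by
      have h4 : dd T s s = 0 := by unfold dd; simp
      have h5 : wt T 0 = 1 := by unfold wt; norm_num
      rw [h4, tri_one, h5, one_mul]
      have h6 : mz s ≤ mz s * mz s := by
        unfold mz
        rcases Nat.eq_zero_or_pos (H370.mult riemannZeta s) with h5 | h5
        · rw [h5]; simp
        · have : (1 : ℝ) ≤ (H370.mult riemannZeta s : ℝ) := by exact_mod_cast h5
          nlinarith
      have := mul_le_mul_of_nonneg_left h6 (show 0 ≤ A ^ 2 / 2 by positivity)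
      linarith
    refine h3.trans (Finset.single_le_sum (f := fun s' => mz s * mz s' * (wt T (dd T s s') *
        ∫ α in (0 : ℝ)..A, (A - α) * Real.cos (2 * π * dd T s s' * α))) (fun s' _ => ?_) hs)
    exact mul_nonneg (mul_nonneg (mz_nonneg _) (mz_nonneg _)) (mul_nonneg (wt_nonneg _ _)
      (tri_cos _ _))
  have h3 : Xf T * (A ^ 2 / 2 * (1 - ε)) ≤ A ^ 2 / 2 * (H370.NN riemannZeta 0 T : ℝ) := by
    have h4 : (1 - ε) * Xf T ≤ (H370.NN riemannZeta 0 T : ℝ) := by
      refine le_trans (le_of_eq ?_) h1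
      unfold Xf
      ring
    have := mul_le_mul_of_nonneg_left h4 (show 0 ≤ A ^ 2 / 2 by positivity)
    linarith
  exact h3.trans h2

/-- the transform of the triangle -/
noncomputable def tA (A x : ℝ) : ℝ := ∫ α in (0 : ℝ)..A, (A - α) * Real.cos (2 * π * x * α)

lemma tA_nonneg (A x : ℝ) : 0 ≤ tA A x := tri_cos A _

lemma tA_le {A : ℝ} (hA : 0 ≤ A) (x : ℝ) : tA A x ≤ A ^ 2 / 2 := by
  rw [← int_lin A]
  unfold tA
  refine intervalIntegral.integral_mono_on hA
    ((by fun_prop : Continuous fun α : ℝ => (A - α) * Real.cos (2 * π * x * α)).intervalIntegrable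
      _ _) ((by fun_prop : Continuous fun α : ℝ => A - α).intervalIntegrable _ _) fun α hα => ?_
  have h1 := Real.cos_le_one (2 * π * x * α)
  have h2 : 0 ≤ A - α := by linarith [hα.2]
  nlinarith

lemma tA_le' (A : ℝ) {x : ℝ} (hx : x ≠ 0) : tA A x ≤ 1 / (2 * π ^ 2 * x ^ 2) := by
  unfold tA
  set c : ℝ := 2 * π * x with hc
  have hc0 : c ≠ 0 := by have := Real.pi_pos; positivity
  have hd : ∀ α ∈ Set.uIcc (0 : ℝ) A, HasDerivAt
      (fun α => (A - α) * Real.sin (c * α) / c - Real.cos (c * α) / c ^ 2)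
      ((A - α) * Real.cos (c * α)) α := by
    intro α _
    have h1 : HasDerivAt (fun α : ℝ => A - α) (-1) α := by
      simpa using (hasDerivAt_id α).const_sub A
    have h2 : HasDerivAt (fun α : ℝ => c * α) c α := by
      simpa using (hasDerivAt_id α).const_mul c
    have h3 : HasDerivAt (fun α => (A - α) * Real.sin (c * α))
        ((-1) * Real.sin (c * α) + (A - α) * (Real.cos (c * α) * c)) α := h1.mul h2.sin
    have h4 : HasDerivAt (fun α => (A - α) * Real.sin (c * α) / c -
        Real.cos (c * α) / c ^ 2) (((-1) * Real.sin (c * α) +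
          (A - α) * (Real.cos (c * α) * c)) / c - (-Real.sin (c * α) * c) / c ^ 2) α :=
      (h3.div_const c).sub (h2.cos.div_const (c ^ 2))
    refine h4.congr_deriv ?_
    field_simp
    ring
  rw [intervalIntegral.integral_eq_sub_of_hasDerivAt hd
    ((by fun_prop : Continuous fun α : ℝ => (A - α) * Real.cos (c * α)).intervalIntegrable _ _)]
  simp only [sub_self, zero_mul, zero_div, mul_zero, Real.sin_zero, Real.cos_zero]
  have h4 := Real.neg_one_le_cos (c * A)
  have h5 : 0 < c ^ 2 := by positivity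
  have h6 : (1 - Real.cos (c * A)) / c ^ 2 ≤ 2 / c ^ 2 :=
    div_le_div_of_nonneg_right (by linarith) h5.le
  have h7 : (1 - Real.cos (c * A)) / c ^ 2 = 1 / c ^ 2 - Real.cos (c * A) / c ^ 2 := by ring
  have h8 : 2 / c ^ 2 = 1 / (2 * π ^ 2 * x ^ 2) := by
    rw [hc]
    have := Real.pi_pos
    field_simp
  linarith

/-- a bound for the transform of the triangle by an average of indicator functions -/
lemma tA_avg {A : ℝ} (hA : 1 ≤ A) (x : ℝ) : tA A x ≤
    (∫ y in (π * A)⁻¹..1, (1 / (π ^ 2 * y ^ 3)) * (Set.Ici |x|).indicator (fun _ => (1 : ℝ)) y) +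
      1 / π ^ 2 / (1 + x ^ 2) := by
  have hpi := Real.pi_gt_three
  set b : ℝ := (π * A)⁻¹ with hb
  have hb0 : 0 < b := by positivity
  have hb1 : b ≤ 1 := by
    rw [hb]
    exact inv_le_one_of_one_le₀ (by nlinarith)
  have hcont : ∀ m : ℝ, 0 < m → ContinuousOn (fun y : ℝ => 1 / (π ^ 2 * y ^ 3)) (Set.Icc m 1) := by
    intro m hm
    refine continuousOn_const.div (by fun_prop) fun y hy => ?_
    have : 0 < y := hm.trans_le hy.1
    positivity
  have hint0 : ∀ m : ℝ, 0 < m → m ≤ 1 →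
      IntervalIntegrable (fun y : ℝ => 1 / (π ^ 2 * y ^ 3)) volume m 1 := by
    intro m hm hm1
    refine ContinuousOn.intervalIntegrable ?_
    rw [Set.uIcc_of_le hm1]
    exact hcont m hm
  have hint1 : ∀ m : ℝ, 0 < m → m ≤ 1 → IntervalIntegrable (fun y : ℝ => (1 / (π ^ 2 * y ^ 3)) *
      (Set.Ici |x|).indicator (fun _ => (1 : ℝ)) y) volume m 1 := by
    intro m hm hm1
    refine (hint0 m hm hm1).mono_fun ?_ ?_
    · refine Measurable.aestronglyMeasurable ?_
      exact (by fun_prop : Measurable fun y : ℝ => 1 / (π ^ 2 * y ^ 3)).mul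
        (measurable_const.indicator measurableSet_Ici)
    · refine Eventually.of_forall fun y => ?_
      show ‖1 / (π ^ 2 * y ^ 3) * (Set.Ici |x|).indicator (fun _ => (1 : ℝ)) y‖ ≤
        ‖1 / (π ^ 2 * y ^ 3)‖
      rw [norm_mul]
      refine mul_le_of_le_one_right (norm_nonneg _) ?_
      by_cases hy : y ∈ Set.Ici |x|
      · rw [Set.indicator_of_mem hy]; norm_num
      · rw [Set.indicator_of_notMem hy]; norm_num
  have hnn : 0 ≤ ∫ y in b..1, (1 / (π ^ 2 * y ^ 3)) *
      (Set.Ici |x|).indicator (fun _ => (1 : ℝ)) y := by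
    refine intervalIntegral.integral_nonneg hb1 fun y hy => ?_
    have : 0 < y := hb0.trans_le hy.1
    exact mul_nonneg (by positivity) (Set.indicator_nonneg (fun _ _ => zero_le_one) _)
  rcases le_or_gt |x| 1 with hx | hx
  · set m : ℝ := max |x| b with hm
    have hm0 : 0 < m := hb0.trans_le (le_max_right _ _)
    have hm1 : m ≤ 1 := max_le hx hb1
    have hbm : b ≤ m := le_max_right _ _
    have e1 : ∫ y in m..1, (1 / (π ^ 2 * y ^ 3)) * (Set.Ici |x|).indicator (fun _ => (1 : ℝ)) y =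
        ∫ y in m..1, 1 / (π ^ 2 * y ^ 3) := by
      refine intervalIntegral.integral_congr fun y hy => ?_
      rw [Set.uIcc_of_le hm1] at hy
      have : y ∈ Set.Ici |x| := (le_max_left _ _).trans hy.1
      show (1 / (π ^ 2 * y ^ 3)) * (Set.Ici |x|).indicator (fun _ => (1 : ℝ)) y = _
      rw [Set.indicator_of_mem this, mul_one]
    have e2 : ∫ y in m..1, 1 / (π ^ 2 * y ^ 3) = 1 / (2 * π ^ 2 * m ^ 2) - 1 / (2 * π ^ 2) := by
      have hd : ∀ y ∈ Set.uIcc m 1, HasDerivAt (fun y : ℝ => -(1 / (2 * π ^ 2)) * (y ^ 2)⁻¹)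
          (1 / (π ^ 2 * y ^ 3)) y := by
        intro y hy
        rw [Set.uIcc_of_le hm1] at hy
        have hy0 : 0 < y := hm0.trans_le hy.1
        have h1 : HasDerivAt (fun y : ℝ => (y ^ 2)⁻¹) (-(2 * y) / (y ^ 2) ^ 2) y := by
          have := (hasDerivAt_pow 2 y).fun_inv (by positivity)
          simpa using this
        refine (h1.const_mul (-(1 / (2 * π ^ 2)))).congr_deriv ?_
        field_simp
      rw [intervalIntegral.integral_eq_sub_of_hasDerivAt hd (hint0 m hm0 hm1)]
      field_simp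
      ring
    have e3 : ∫ y in m..1, (1 / (π ^ 2 * y ^ 3)) * (Set.Ici |x|).indicator (fun _ => (1 : ℝ)) y ≤
        ∫ y in b..1, (1 / (π ^ 2 * y ^ 3)) * (Set.Ici |x|).indicator (fun _ => (1 : ℝ)) y := by
      rw [← intervalIntegral.integral_add_adjacent_intervals
        (a := b) (b := m) (c := 1) ((hint1 b hb0 hb1).mono_set (by
          rw [Set.uIcc_of_le hbm, Set.uIcc_of_le hb1]
          exact Set.Icc_subset_Icc_right hm1)) (hint1 m hm0 hm1)]
      have : 0 ≤ ∫ y in b..m, (1 / (π ^ 2 * y ^ 3)) *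
          (Set.Ici |x|).indicator (fun _ => (1 : ℝ)) y := by
        refine intervalIntegral.integral_nonneg hbm fun y hy => ?_
        have : 0 < y := hb0.trans_le hy.1
        exact mul_nonneg (by positivity) (Set.indicator_nonneg (fun _ _ => zero_le_one) _)
      linarith
    rw [e1, e2] at e3
    have e4 : 1 / (2 * π ^ 2) ≤ 1 / π ^ 2 / (1 + x ^ 2) := by
      have hx2 : x ^ 2 ≤ 1 := by
        rw [← sq_abs]
        exact pow_le_one₀ (abs_nonneg _) hx
      rw [div_div, div_le_div_iff₀ (by positivity) (by positivity)]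
      have : 0 < π ^ 2 := by positivity
      nlinarith
    have e5 : tA A x ≤ 1 / (2 * π ^ 2 * m ^ 2) := by
      rcases le_or_gt |x| b with h | h
      · have hmb : m = b := max_eq_right h
        rw [hmb]
        refine (tA_le (by linarith) x).trans (le_of_eq ?_)
        rw [hb]
        field_simp
      · have hmx : m = |x| := max_eq_left h.le
        have hx0 : x ≠ 0 := by
          rintro rfl
          rw [abs_zero] at h
          linarith
        rw [hmx, sq_abs]
        exact tA_le' A hx0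
    linarith
  · have hx0 : x ≠ 0 := by
      rintro rfl
      rw [abs_zero] at hx
      linarith
    have h1 := tA_le' A hx0
    have hx2 : 1 ≤ x ^ 2 := by
      rw [← sq_abs]
      exact one_le_pow₀ hx.le
    have h2 : 1 / (2 * π ^ 2 * x ^ 2) ≤ 1 / π ^ 2 / (1 + x ^ 2) := by
      rw [div_div, div_le_div_iff₀ (by positivity) (by positivity)]
      have : 0 < π ^ 2 := by positivity
      nlinarith
    linarith

/-- the average of the primitive as a pair sum -/
lemma Ph_pairs (T A : ℝ) : ∫ s in (0 : ℝ)..A, Ph T s = (Xf T)⁻¹ * ∑ s ∈ Zt T, ∑ s' ∈ Zt T,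
    mz s * mz s' * (wt T (dd T s s') * tA A (dd T s s')) := by
  rw [Ph_avg]
  have e2 : ∀ α, (A - α) * FT T α = (Xf T)⁻¹ * ∑ s ∈ Zt T, ∑ s' ∈ Zt T,
      mz s * mz s' * (wt T (dd T s s') * ((A - α) * Real.cos (2 * π * dd T s s' * α))) := by
    intro α
    unfold FT
    rw [mul_left_comm, Finset.mul_sum]
    congr 1
    refine Finset.sum_congr rfl fun s _ => ?_
    rw [Finset.mul_sum]
    refine Finset.sum_congr rfl fun s' _ => ?_
    ring
  simp_rw [e2]
  rw [intervalIntegral.integral_const_mul, intervalIntegral.integral_finsetSum (fun s _ =>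
    (by fun_prop : Continuous fun α => ∑ s' ∈ Zt T, mz s * mz s' * (wt T (dd T s s') *
      ((A - α) * Real.cos (2 * π * dd T s s' * α)))).intervalIntegrable _ _)]
  congr 1
  refine Finset.sum_congr rfl fun s _ => ?_
  rw [intervalIntegral.integral_finsetSum (fun s' _ =>
    (by fun_prop : Continuous fun α => mz s * mz s' * (wt T (dd T s s') *
      ((A - α) * Real.cos (2 * π * dd T s s' * α)))).intervalIntegrable _ _)]
  refine Finset.sum_congr rfl fun s' _ => ?_
  rw [intervalIntegral.integral_const_mul, intervalIntegral.integral_const_mul]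
  rfl

/-- **the upper bound for the average of the primitive** -/
lemma Ph_upper (RH : RiemannHypothesis) : ∃ C T0 : ℝ, 1 < T0 ∧ ∀ T : ℝ, T0 ≤ T → ∀ A, 1 ≤ A →
    ∫ s in (0 : ℝ)..A, Ph T s ≤ (∫ y in (π * A)⁻¹..1, Aa T y * (1 / (π ^ 2 * y ^ 3))) + C := by
  obtain ⟨C, B0, V0, hC, hB0, hV0, hblk, hloc⟩ := PP_bound RH
  have hpi := Real.pi_gt_three
  have hpi0 := Real.pi_pos
  refine ⟨3200 * (1 / π ^ 2) * (B0 + C) * (2 * π), V0, by linarith, fun T hT A hA => ?_⟩
  have hT20 : 20 ≤ T := hV0.trans hT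
  have hX := Xf_pos (V := T) (by linarith)
  have hL1 : 1 ≤ Real.log T := by
    rw [Real.le_log_iff_exp_le (by linarith)]
    linarith [Real.exp_one_lt_d9]
  have hb0 : 0 < (π * A)⁻¹ := by positivity
  have hb1 : (π * A)⁻¹ ≤ 1 := inv_le_one_of_one_le₀ (by nlinarith)
  rw [Ph_pairs]
  have h1 : ∑ s ∈ Zt T, ∑ s' ∈ Zt T, mz s * mz s' * (wt T (dd T s s') * tA A (dd T s s')) ≤
      ∑ s ∈ Zt T, ∑ s' ∈ Zt T, mz s * mz s' * ((∫ y in (π * A)⁻¹..1, (1 / (π ^ 2 * y ^ 3)) *
        (Set.Ici |dd T s s'|).indicator (fun _ => (1 : ℝ)) y) +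
        1 / π ^ 2 / (1 + (dd T s s') ^ 2)) := by
    refine Finset.sum_le_sum fun s _ => Finset.sum_le_sum fun s' _ => ?_
    refine mul_le_mul_of_nonneg_left ?_ (mul_nonneg (mz_nonneg _) (mz_nonneg _))
    have h2 := mul_le_mul_of_nonneg_right (wt_le T (dd T s s')) (tA_nonneg A (dd T s s'))
    rw [one_mul] at h2
    exact h2.trans (tA_avg hA _)
  have h2 : ∑ s ∈ Zt T, ∑ s' ∈ Zt T, mz s * mz s' * ((∫ y in (π * A)⁻¹..1,
      (1 / (π ^ 2 * y ^ 3)) * (Set.Ici |dd T s s'|).indicator (fun _ => (1 : ℝ)) y) +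
        1 / π ^ 2 / (1 + (dd T s s') ^ 2)) =
      (∑ s ∈ Zt T, ∑ s' ∈ Zt T, mz s * mz s' * (∫ y in (π * A)⁻¹..1,
      (1 / (π ^ 2 * y ^ 3)) * (Set.Ici |dd T s s'|).indicator (fun _ => (1 : ℝ)) y)) +
      ∑ s ∈ Zt T, ∑ s' ∈ Zt T, mz s * mz s' * (1 / π ^ 2 / (1 + (dd T s s') ^ 2)) := by
    rw [← Finset.sum_add_distrib]
    refine Finset.sum_congr rfl fun s _ => ?_
    rw [← Finset.sum_add_distrib]
    refine Finset.sum_congr rfl fun s' _ => ?_
    ring
  have hint : ∀ x : ℝ, IntervalIntegrable (fun y : ℝ => (1 / (π ^ 2 * y ^ 3)) *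
      (Set.Ici |x|).indicator (fun _ => (1 : ℝ)) y) volume (π * A)⁻¹ 1 := by
    intro x
    have h0 : IntervalIntegrable (fun y : ℝ => 1 / (π ^ 2 * y ^ 3)) volume (π * A)⁻¹ 1 := by
      refine ContinuousOn.intervalIntegrable ?_
      rw [Set.uIcc_of_le hb1]
      refine continuousOn_const.div (by fun_prop) fun y hy => ?_
      have : 0 < y := hb0.trans_le hy.1
      positivity
    refine h0.mono_fun ?_ ?_
    · refine Measurable.aestronglyMeasurable ?_
      exact (by fun_prop : Measurable fun y : ℝ => 1 / (π ^ 2 * y ^ 3)).mul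
        (measurable_const.indicator measurableSet_Ici)
    · refine Eventually.of_forall fun y => ?_
      show ‖1 / (π ^ 2 * y ^ 3) * (Set.Ici |x|).indicator (fun _ => (1 : ℝ)) y‖ ≤
        ‖1 / (π ^ 2 * y ^ 3)‖
      rw [norm_mul]
      refine mul_le_of_le_one_right (norm_nonneg _) ?_
      by_cases hy : y ∈ Set.Ici |x|
      · rw [Set.indicator_of_mem hy]; norm_num
      · rw [Set.indicator_of_notMem hy]; norm_num
  have h3 : ∫ y in (π * A)⁻¹..1, Aa T y * (1 / (π ^ 2 * y ^ 3)) =
      (Xf T)⁻¹ * ∑ s ∈ Zt T, ∑ s' ∈ Zt T, mz s * mz s' * (∫ y in (π * A)⁻¹..1,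
      (1 / (π ^ 2 * y ^ 3)) * (Set.Ici |dd T s s'|).indicator (fun _ => (1 : ℝ)) y) := by
    have e1 : ∀ y, Aa T y * (1 / (π ^ 2 * y ^ 3)) = (Xf T)⁻¹ * ∑ s ∈ Zt T, ∑ s' ∈ Zt T,
        mz s * mz s' * ((1 / (π ^ 2 * y ^ 3)) *
          (Set.Ici |dd T s s'|).indicator (fun _ => (1 : ℝ)) y) := by
      intro y
      unfold Aa PC
      rw [mul_assoc, Finset.sum_mul]
      congr 1
      refine Finset.sum_congr rfl fun s _ => ?_
      rw [Finset.sum_mul]
      refine Finset.sum_congr rfl fun s' _ => ?_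
      by_cases hx : |dd T s s'| ≤ y
      · rw [Set.indicator_of_mem (show dd T s s' ∈ {x | |x| ≤ y} from hx),
          Set.indicator_of_mem (show y ∈ Set.Ici |dd T s s'| from hx)]
        ring
      · rw [Set.indicator_of_notMem (show dd T s s' ∉ {x | |x| ≤ y} from hx),
          Set.indicator_of_notMem (show y ∉ Set.Ici |dd T s s'| from hx)]
        ring
    simp_rw [e1]
    have hs1 : ∀ s : ℂ, IntervalIntegrable (fun y : ℝ => ∑ s' ∈ Zt T, mz s * mz s' *
        ((1 / (π ^ 2 * y ^ 3)) * (Set.Ici |dd T s s'|).indicator (fun _ => (1 : ℝ)) y)) volume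
        (π * A)⁻¹ 1 := by
      intro s
      have := IntervalIntegrable.sum (μ := volume) (a := (π * A)⁻¹) (b := 1) (Zt T)
        (f := fun s' y => mz s * mz s' * ((1 / (π ^ 2 * y ^ 3)) *
          (Set.Ici |dd T s s'|).indicator (fun _ => (1 : ℝ)) y))
        (fun s' _ => (hint (dd T s s')).const_mul _)
      refine this.congr ?_
      intro y _
      rw [Finset.sum_apply]
    rw [intervalIntegral.integral_const_mul, intervalIntegral.integral_finsetSum
      (fun s _ => hs1 s)]
    congr 1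
    refine Finset.sum_congr rfl fun s _ => ?_
    rw [intervalIntegral.integral_finsetSum (fun s' _ => (hint (dd T s s')).const_mul _)]
    refine Finset.sum_congr rfl fun s' _ => ?_
    rw [intervalIntegral.integral_const_mul]
  have h4 : (Xf T)⁻¹ * ∑ s ∈ Zt T, ∑ s' ∈ Zt T, mz s * mz s' *
      (1 / π ^ 2 / (1 + (dd T s s') ^ 2)) ≤ 3200 * (1 / π ^ 2) * (B0 + C) * (2 * π) := by
    have q1 := QS_abs_bound (x := fun s : ℂ => s.im) (Zt T) (Zt T) mz_nonneg
      (f := fun x : ℝ => 1 / π ^ 2 / (1 + x ^ 2)) (K := 1 / π ^ 2) (fun x => by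
        rw [abs_of_nonneg (by positivity)]) (Λ := Real.log T) (by linarith) one_pos
    have q2 := hloc T hT (Real.log T) le_rfl
    have q3 : B0 ≤ B0 * (T * Real.log T) := by
      have : 1 ≤ T * Real.log T := by nlinarith
      nlinarith
    have q4 : ∑ s ∈ Zt T, ∑ s' ∈ Zt T, mz s * mz s' * (1 / π ^ 2 / (1 + (dd T s s') ^ 2)) ≤
        ∑ s ∈ Zt T, ∑ s' ∈ Zt T, mz s * mz s' *
          |(fun x : ℝ => 1 / π ^ 2 / (1 + x ^ 2)) ((s.im - s'.im) * Real.log T / (2 * π))| := by
      refine Finset.sum_le_sum fun s _ => Finset.sum_le_sum fun s' _ => ?_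
      refine mul_le_mul_of_nonneg_left (le_abs_self _) (mul_nonneg (mz_nonneg _) (mz_nonneg _))
    rw [inv_mul_le_iff₀ hX]
    refine q4.trans (q1.trans ?_)
    have q6 : (1 : ℝ) * TH803TW.PP1 (Zt T) mz (fun s => s.im) (Real.log T) +
        1 / 1 * TH803TW.PP1 (Zt T) mz (fun s => s.im) (Real.log T) ≤
        2 * ((B0 + C) * (T * Real.log T)) := by
      rw [one_mul, div_one, one_mul]
      linarith
    have q7 := mul_le_mul_of_nonneg_left q6 (show (0 : ℝ) ≤ 1600 * (1 / π ^ 2) by positivity)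
    refine q7.trans (le_of_eq ?_)
    unfold Xf
    field_simp
    ring
  rw [h3]
  have h5 := mul_le_mul_of_nonneg_left (h1.trans (le_of_eq h2)) (inv_nonneg.2 hX.le)
  rw [mul_add] at h5
  linarith

variable {κ : ℝ} {ψ : ℝ → ℝ}

/-- pair sum with Montgomery's weight -/
noncomputable def QW (f : ℝ → ℝ) (T : ℝ) : ℝ :=
  ∑ s ∈ Zt T, ∑ s' ∈ Zt T, mz s * mz s' * (wt T (dd T s s') * f (dd T s s'))

/-- the diagonal -/
lemma QW_lower {f : ℝ → ℝ} (hf : ∀ x, 0 ≤ f x) {ε : ℝ} (hε : 0 < ε) : ∀ᶠ T in atTop,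
    f 0 * (1 - ε) ≤ (Xf T)⁻¹ * QW f T := by
  classical
  obtain ⟨T0, hT0, h⟩ := Pool.Agent.W54.TCF.NT_asymp' ε hε
  filter_upwards [eventually_ge_atTop T0] with T hT
  have hT1 : 1 < T := by linarith
  have hX := Xf_pos hT1
  have h1 := (h T hT).1
  rw [le_inv_mul_iff₀ hX]
  have h2 : f 0 * (H370.NN riemannZeta 0 T : ℝ) ≤ QW f T := by
    rw [← sum_Zt, Finset.mul_sum]
    unfold QW
    refine Finset.sum_le_sum fun s hs => ?_
    have h3 : f 0 * mz s ≤ mz s * mz s * (wt T (dd T s s) * f (dd T s s)) := by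
      have h4 : dd T s s = 0 := by unfold dd; simp
      have h5 : wt T 0 = 1 := by unfold wt; norm_num
      rw [h4, h5, one_mul]
      have h6 : mz s ≤ mz s * mz s := by
        unfold mz
        rcases Nat.eq_zero_or_pos (H370.mult riemannZeta s) with h5 | h5
        · rw [h5]; simp
        · have : (1 : ℝ) ≤ (H370.mult riemannZeta s : ℝ) := by exact_mod_cast h5
          nlinarith
      have := mul_le_mul_of_nonneg_left h6 (hf 0)
      linarith
    refine h3.trans (Finset.single_le_sum (f := fun s' => mz s * mz s' * (wt T (dd T s s') *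
        f (dd T s s'))) (fun s' _ => ?_) hs)
    exact mul_nonneg (mul_nonneg (mz_nonneg _) (mz_nonneg _)) (mul_nonneg (wt_nonneg _ _)
      (hf _))
  have h4 : (1 - ε) * Xf T ≤ (H370.NN riemannZeta 0 T : ℝ) := by
    refine le_trans (le_of_eq ?_) h1
    unfold Xf
    ring
  have := mul_le_mul_of_nonneg_left h4 (hf 0)
  linarith

/-- integrals against Montgomery's function -/
lemma FT_ct (hψ : TK κ ψ) (T : ℝ) : ∫ α, ψ α * FT T α = (Xf T)⁻¹ * QW (ct ψ) T := by
  have e2 : ∀ α, ψ α * FT T α = (Xf T)⁻¹ * ∑ s ∈ Zt T, ∑ s' ∈ Zt T,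
      mz s * mz s' * (wt T (dd T s s') * (ψ α * Real.cos (2 * π * dd T s s' * α))) := by
    intro α
    unfold FT
    rw [mul_left_comm, Finset.mul_sum]
    congr 1
    refine Finset.sum_congr rfl fun s _ => ?_
    rw [Finset.mul_sum]
    refine Finset.sum_congr rfl fun s' _ => ?_
    ring
  simp_rw [e2]
  have hi : ∀ s s' : ℂ, Integrable fun α => mz s * mz s' * (wt T (dd T s s') *
      (ψ α * Real.cos (2 * π * dd T s s' * α))) := fun s s' =>
    ((hψ.mul_int (by fun_prop)).const_mul _).const_mul _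
  rw [integral_const_mul, integral_finsetSum _ fun s _ => integrable_finsetSum _ fun s' _ =>
    hi s s']
  unfold QW
  congr 1
  refine Finset.sum_congr rfl fun s _ => ?_
  rw [integral_finsetSum _ fun s' _ => hi s s']
  refine Finset.sum_congr rfl fun s' _ => ?_
  rw [integral_const_mul, integral_const_mul]
  rfl

/-- integration by parts -/
lemma FT_parts (hψ : TK κ ψ) (T : ℝ) : ∫ α, deriv ψ α * Ph T α = -∫ α, ψ α * FT T α := by
  have hd1 : Differentiable ℝ ψ := hψ.smooth.differentiable (by simp)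
  have hs1 := TK.deriv_smooth hψ.smooth
  have hc1 : HasCompactSupport (deriv ψ) := hψ.hcs.deriv
  have h := integral_mul_deriv_eq_deriv_mul_of_integrable (u := ψ) (v := Ph T)
    (u' := deriv ψ) (v' := FT T) (fun α _ => (hd1 α).hasDerivAt) (fun α _ => Ph_deriv T α)
    (hψ.mul_int (FT_cont T))
    ((hs1.continuous.mul (Ph_cont T)).integrable_of_hasCompactSupport hc1.mul_right)
    (hψ.mul_int (Ph_cont T))
  have h1 : ∫ α, ψ α * FT T α = -∫ α, deriv ψ α * Ph T α := h
  rw [h1, neg_neg]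

/-- the weight is negligible -/
lemma weight_lim (RH : RiemannHypothesis) {f : ℝ → ℝ} {D : ℝ}
    (hf : ∀ y, |f y| ≤ D / (1 + y ^ 2) ^ 2) :
    Tendsto (fun T => (Xf T)⁻¹ * (Q2 f T (Real.log T) - QW f T)) atTop (𝓝 0) := by
  obtain ⟨C, B0, V0, hC, hB0, hV0, hblk, hloc⟩ := PP_bound RH
  have hpi := Real.pi_pos
  have hD : 0 ≤ D := by
    have := (abs_nonneg _).trans (hf 0)
    simpa using this
  set E : ℝ := 3200 * (π ^ 2 * D) * (B0 + C) * (2 * π) with hE
  have hlim : Tendsto (fun T => E * (Real.log T)⁻¹) atTop (𝓝 0) := by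
    have := (tendsto_inv_atTop_zero.comp Real.tendsto_log_atTop).const_mul E
    rw [mul_zero] at this
    exact this
  refine squeeze_zero_norm' ?_ hlim
  filter_upwards [eventually_ge_atTop V0] with T hT
  have hT20 : 20 ≤ T := hV0.trans hT
  have hX := Xf_pos (V := T) (by linarith)
  have hL1 : 1 ≤ Real.log T := by
    rw [Real.le_log_iff_exp_le (by linarith)]
    linarith [Real.exp_one_lt_d9]
  have hL0 : 0 < Real.log T := by linarith
  rw [Real.norm_eq_abs, abs_mul, abs_of_pos (inv_pos.2 hX), inv_mul_le_iff₀ hX]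
  -- the difference
  have e1 : Q2 f T (Real.log T) - QW f T = ∑ s ∈ Zt T, ∑ s' ∈ Zt T, mz s * mz s' *
      ((1 - wt T (dd T s s')) * f (dd T s s')) := by
    unfold Q2 QS QW
    rw [← Finset.sum_sub_distrib]
    refine Finset.sum_congr rfl fun s _ => ?_
    rw [← Finset.sum_sub_distrib]
    refine Finset.sum_congr rfl fun s' _ => ?_
    show mz s * mz s' * f (dd T s s') - _ = _
    ring
  rw [e1]
  have h1 : ∀ x : ℝ, |(1 - wt T x) * f x| ≤ π ^ 2 * D / (Real.log T) ^ 2 / (1 + x ^ 2) := by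
    intro x
    have h2 : 0 ≤ 1 - wt T x := by linarith [wt_le T x]
    have h3 : 1 - wt T x ≤ π ^ 2 * x ^ 2 / (Real.log T) ^ 2 := by
      set y := (2 * π * x / Real.log T) ^ 2 with hy
      have hy0 : 0 ≤ y := sq_nonneg _
      have e : 1 - wt T x = y / (4 + y) := by
        unfold wt
        rw [← hy]
        field_simp
        ring
      have e3 : π ^ 2 * x ^ 2 / (Real.log T) ^ 2 = y / 4 := by
        rw [hy]
        field_simp
        ring
      rw [e, e3]
      exact div_le_div_of_nonneg_left hy0 (by norm_num) (by linarith)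
    rw [abs_mul, abs_of_nonneg h2]
    calc (1 - wt T x) * |f x| ≤ π ^ 2 * x ^ 2 / (Real.log T) ^ 2 * (D / (1 + x ^ 2) ^ 2) :=
          mul_le_mul h3 (hf x) (abs_nonneg _) (by positivity)
      _ = π ^ 2 * D / (Real.log T) ^ 2 * (x ^ 2 / (1 + x ^ 2) ^ 2) := by ring
      _ ≤ π ^ 2 * D / (Real.log T) ^ 2 * (1 / (1 + x ^ 2)) := by
          refine mul_le_mul_of_nonneg_left ?_ (by positivity)
          rw [div_le_div_iff₀ (by positivity) (by positivity)]
          nlinarith [sq_nonneg x]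
      _ = _ := by ring
  have h2 := QS_abs_bound (x := fun s : ℂ => s.im) (Zt T) (Zt T) mz_nonneg
    (f := fun x => (1 - wt T x) * f x) (K := π ^ 2 * D / (Real.log T) ^ 2) h1
    (Λ := Real.log T) hL0 one_pos
  have h3 := hloc T hT (Real.log T) le_rfl
  have h4 : B0 ≤ B0 * (T * Real.log T) := by
    have : 1 ≤ T * Real.log T := by nlinarith
    nlinarith
  have h5 : |∑ s ∈ Zt T, ∑ s' ∈ Zt T, mz s * mz s' * ((1 - wt T (dd T s s')) *
      f (dd T s s'))| ≤ ∑ s ∈ Zt T, ∑ s' ∈ Zt T, mz s * mz s' *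
        |(fun x => (1 - wt T x) * f x) ((s.im - s'.im) * Real.log T / (2 * π))| := by
    refine (Finset.abs_sum_le_sum_abs _ _).trans (Finset.sum_le_sum fun s _ => ?_)
    refine (Finset.abs_sum_le_sum_abs _ _).trans (Finset.sum_le_sum fun s' _ => ?_)
    rw [abs_mul, abs_of_nonneg (mul_nonneg (mz_nonneg _) (mz_nonneg _))]
    exact le_rfl
  refine h5.trans (h2.trans ?_)
  have h6 : (1 : ℝ) * TH803TW.PP1 (Zt T) mz (fun s => s.im) (Real.log T) +
      1 / 1 * TH803TW.PP1 (Zt T) mz (fun s => s.im) (Real.log T) ≤ 2 * ((B0 + C) * (T * Real.log T)) := by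
    rw [one_mul, div_one, one_mul]
    linarith
  have h7 := mul_le_mul_of_nonneg_left h6
    (show (0 : ℝ) ≤ 1600 * (π ^ 2 * D / (Real.log T) ^ 2) by positivity)
  refine h7.trans ?_
  have e7 : 1600 * (π ^ 2 * D / (Real.log T) ^ 2) * (2 * ((B0 + C) * (T * Real.log T))) =
      Xf T * (E * ((Real.log T)⁻¹ * (Real.log T)⁻¹)) := by
    rw [hE]
    unfold Xf
    field_simp
    ring
  rw [e7]
  refine mul_le_mul_of_nonneg_left ?_ hX.le
  refine mul_le_mul_of_nonneg_left ?_ (by rw [hE]; positivity)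
  have h8 : (Real.log T)⁻¹ ≤ 1 := inv_le_one_of_one_le₀ hL1
  have h9 : 0 < (Real.log T)⁻¹ := inv_pos.2 hL0
  nlinarith

/-- **the link between the counting function and Montgomery's function** -/
theorem link (RH : RiemannHypothesis) {K : ℝ → ℝ} (hK : TK κ K) {h : ℝ} (hh : 0 < h) :
    Tendsto (fun T => (∫ y, Aa T y * (ct K (y + h) - ct K (y - h))) -
      ∫ α, Ph T α * deriv (Kav K h) α) atTop (𝓝 0) := by
  obtain ⟨D, hD0, hD⟩ := fav_decay hK hh
  have h1 := (weight_lim RH hD).neg
  rw [neg_zero] at h1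
  refine h1.congr fun T => ?_
  rw [Aa_int hK hh]
  have h2 : ∫ α, Ph T α * deriv (Kav K h) α = ∫ α, deriv (Kav K h) α * Ph T α := by
    refine integral_congr_ae (Eventually.of_forall fun α => ?_)
    show Ph T α * deriv (Kav K h) α = _
    ring
  rw [h2, FT_parts (Kav_TK hK h), FT_ct (Kav_TK hK h)]
  have h3 : QW (ct (Kav K h)) T = QW (fav K h) T := by
    unfold QW
    refine Finset.sum_congr rfl fun s _ => Finset.sum_congr rfl fun s' _ => ?_
    rw [fav_eq hK hh]
  rw [h3]
  ring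

end Pool.Agent.W2helper22.UB
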