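import Pool.Agent.W2helper22.UB.Rig
import Pool.Agent.W2helper22.PC.Ctl

/-! # The criterion -/

set_option autoImplicit false

open MeasureTheory Filter Topology Real
open Pool.Agent.Y744

namespace Pool.Agent.W2helper22.UB

open Pool.Agent.W2helper22.PC

/-- the prediction for the integral of Montgomery's function over `[a, b]` -/
noncomputable def M (a b : ℝ) : ℝ := (∫ α in a..b, min |α| 1) + if a < 0 ∧ 0 < b then 1 else 0

lemma M_eq {a b : ℝ} (hab : a < b) (ha : a ≠ 0) (hb : b ≠ 0) : M a b = Pg b - Pg a := by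
  unfold M Pg
  rw [← Mp_sub]
  rcases lt_or_gt_of_ne ha with ha | ha
  · rcases lt_or_gt_of_ne hb with hb | hb
    · rw [if_neg (by rintro ⟨_, h⟩; linarith), Real.sign_of_neg ha, Real.sign_of_neg hb]
      ring
    · rw [if_pos ⟨ha, hb⟩, Real.sign_of_neg ha, Real.sign_of_pos hb]
      ring
  · rw [if_neg (by rintro ⟨h, _⟩; linarith), Real.sign_of_pos ha,
      Real.sign_of_pos (ha.trans hab)]
    ring

/-- the integral of Montgomery's function -/
noncomputable def J (T a b : ℝ) : ℝ :=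
  ∫ α in a..b, (Pool.Agent.Results.MP_103a5c_nt.LongAverages.F α T).re

lemma J_eq {T : ℝ} (hT : 1 < T) (a b : ℝ) : J T a b = Ph T b - Ph T a := by
  rw [Ph_sub]
  exact intervalIntegral.integral_congr fun α _ => FT_eq α hT

variable {A' Φ : ℝ → ℝ} {C0 C1 C2 : ℝ}

/-- the conjecture determines the limits of the counting functions -/
lemma A_of_Mont {F : Filter ℝ} (hF : F ≤ atTop) (hM : G.Montgomery F) (g : Ultrafilter ℝ)
    (hg : (g : Filter ℝ) ≤ F) (h : Pair A' Φ C0 C1 C2)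
    (hlim : ∀ y, Tendsto (fun T => Aa T y) (g : Filter ℝ) (𝓝 (A' y))) (y : ℝ) : A' y = AG y := by
  have hl := h.lim (1 / 2) (by norm_num) (by norm_num)
  rw [G.Mont_iff hF] at hM
  have hpos : ∀ y, 0 < y → A' y = 1 + 2 * gp y := by
    intro y hy
    have h1 := (hM (-y) y (by linarith)).mono_left hg
    have h2 : (fun T => Nr T (-y) y) = fun T => Aa T y := by
      funext T
      unfold Nr Aa
      rw [div_eq_inv_mul]
      congr 2
      ext x
      show -y ≤ x ∧ x ≤ y ↔ |x| ≤ y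
      rw [abs_le]
    rw [h2] at h1
    rw [tendsto_nhds_unique (hlim y) h1]
    unfold pr
    rw [Set.indicator_of_mem (show (0 : ℝ) ∈ Set.Icc (-y) y from ⟨by linarith, hy.le⟩), gp_odd]
    ring
  rcases lt_trichotomy y 0 with hy | rfl | hy
  · rw [hl.neg y hy]
    unfold AG
    rw [if_pos hy]
  · unfold AG
    rw [if_neg (lt_irrefl _), gp_zero]
    refine le_antisymm ?_ (by linarith [hl.one])
    refine le_of_forall_pos_le_add fun ε hε => ?_
    have h1 := hpos (ε / 2) (by positivity)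
    have h2 := gp_le (show 0 ≤ ε / 2 by positivity)
    have h3 := hl.mono (show 0 ≤ ε / 2 by positivity)
    linarith
  · rw [hpos y hy]
    unfold AG
    rw [if_neg (by linarith)]

/-- all the windows -/
lemma all_windows (RH : RiemannHypothesis) {F : Filter ℝ} (hF : F ≤ atTop)
    (hM : G.Montgomery F) {a b : ℝ} (hab : a < b) (ha : a ≠ 0) (hb : b ≠ 0) :
    Tendsto (fun T => J T a b) F (𝓝 (M a b)) := by
  rw [tendsto_iff_ultrafilter]
  intro g hg
  obtain ⟨A', Φ, C0, C1, C2, h, hlim, hlim1⟩ := exists_Pair RH g (hg.trans hF)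
  have h1 := h.all (h.Phi_of_A (A_of_Mont hF hM g hg h hlim))
  rw [M_eq hab ha hb, ← h1, ← h1]
  refine ((hlim1 b).sub (hlim1 a)).congr' ?_
  filter_upwards [(hg.trans hF) (eventually_gt_atTop (1 : ℝ))] with T hT
  exact (J_eq hT a b).symm

/-- from a dense set of windows to almost all of them -/
lemma ae_of_dense {Φ : ℝ → ℝ} (hΦ : Monotone Φ) {Q : Set ℝ} (hQ : Dense Q) {ℓ s : ℝ}
    (h : ∀ a ∈ Q, a ≠ 0 → a + ℓ ≠ 0 → s * (Φ (a + ℓ) - Φ a) ≤ s * (Pg (a + ℓ) - Pg a)) :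
    ∀ᵐ a, s * (Φ (a + ℓ) - Φ a) ≤ s * (Pg (a + ℓ) - Pg a) := by
  have hc : ∀ᵐ x, ContinuousAt Φ x := hΦ.countable_not_continuousAt.ae_notMem volume |>.mono
    fun x hx => by
      by_contra hc
      exact hx hc
  have hc2 := (measurePreserving_add_right (volume : Measure ℝ) ℓ).quasiMeasurePreserving.ae hc
  have h0 : ∀ᵐ x : ℝ, x ≠ 0 := by
    rw [ae_iff]
    simp
  have h1 := (measurePreserving_add_right (volume : Measure ℝ) ℓ).quasiMeasurePreserving.ae h0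
  filter_upwards [hc, hc2, h0, h1] with a c1 c2 a0 a1
  have hcl : a ∈ closure (Q ∩ {x | x ≠ 0 ∧ x + ℓ ≠ 0}) := by
    have hop : IsOpen {x : ℝ | x ≠ 0 ∧ x + ℓ ≠ 0} :=
      isOpen_ne.inter (isOpen_ne.preimage (by fun_prop : Continuous fun x : ℝ => x + ℓ))
    exact hop.closure_inter ⟨hQ a, a0, a1⟩
  obtain ⟨q, hq1, hq⟩ := mem_closure_iff_seq_limit.1 hcl
  have hql : Tendsto (fun n => q n + ℓ) atTop (𝓝 (a + ℓ)) := hq.add_const ℓ
  have e1 := ((c2.tendsto.comp hql).sub (c1.tendsto.comp hq)).const_mul s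
  have e2 := (((Pg_contAt' a1).tendsto.comp hql).sub ((Pg_contAt' a0).tendsto.comp hq)).const_mul s
  refine le_of_tendsto_of_tendsto e1 e2 (Eventually.of_forall fun n => ?_)
  exact h (q n) (hq1 n).1 (hq1 n).2.1 (hq1 n).2.2

/-- the conjecture follows once it is known for the limits -/
lemma mont_of_limits (RH : RiemannHypothesis) {F : Filter ℝ} (hF : F ≤ atTop)
    (h : ∀ g : Ultrafilter ℝ, (g : Filter ℝ) ≤ F → ∀ (A' Φ : ℝ → ℝ) (C0 C1 C2 : ℝ),
      Pair A' Φ C0 C1 C2 → (∀ y, Tendsto (fun T => Aa T y) (g : Filter ℝ) (𝓝 (A' y))) →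
      (∀ s, Tendsto (fun T => Ph T s) (g : Filter ℝ) (𝓝 (Φ s))) → ∀ x, 0 < x → Φ x = Pg x) :
    G.Montgomery F := by
  rw [G.Mont_iff hF]
  intro α β hαβ
  refine Nr_all hF (fun x => ?_) hαβ
  rw [tendsto_iff_ultrafilter]
  intro g hg
  obtain ⟨A', Φ, C0, C1, C2, hP, hlim, hlim1⟩ := exists_Pair RH g (hg.trans hF)
  rw [← hP.A_of_Phi (h g hg A' Φ C0 C1 C2 hP hlim hlim1) x]
  exact hlim x

/-- the windows pass to the limit -/
lemma window_lim {g : Filter ℝ} (hg : g ≤ atTop) {Φ : ℝ → ℝ}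
    (hlim1 : ∀ s, Tendsto (fun T => Ph T s) g (𝓝 (Φ s))) (a b : ℝ) :
    Tendsto (fun T => J T a b) g (𝓝 (Φ b - Φ a)) := by
  refine ((hlim1 b).sub (hlim1 a)).congr' ?_
  filter_upwards [hg (eventually_gt_atTop (1 : ℝ))] with T hT
  exact (J_eq hT a b).symm

/-- **upper bounds suffice**: a single length of the windows -/
theorem mont_of_upper (RH : RiemannHypothesis) {F : Filter ℝ} (hF : F ≤ atTop) {Q : Set ℝ}
    (hQ : Dense Q) {ℓ : ℝ} (hℓ : 0 < ℓ) (hyp : ∀ a ∈ Q, a ≠ 0 → a + ℓ ≠ 0 → ∀ δ, 0 < δ →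
      ∀ᶠ T in F, J T a (a + ℓ) ≤ M a (a + ℓ) + δ) : G.Montgomery F := by
  refine mont_of_limits RH hF fun g hg A' Φ C0 C1 C2 hP hlim hlim1 => ?_
  have key : ∀ a ∈ Q, a ≠ 0 → a + ℓ ≠ 0 →
      1 * (Φ (a + ℓ) - Φ a) ≤ 1 * (Pg (a + ℓ) - Pg a) := by
    intro a ha ha0 hl0
    rw [one_mul, one_mul]
    have : NeBot (g : Filter ℝ) := g.neBot
    refine le_of_forall_pos_le_add fun δ hδ => ?_
    refine le_of_tendsto (window_lim (hg.trans hF) hlim1 a (a + ℓ)) ?_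
    filter_upwards [hg (hyp a ha ha0 hl0 δ hδ)] with T h2
    rw [M_eq (by linarith) ha0 hl0] at h2
    exact h2
  refine hP.of_upper hℓ ((ae_of_dense hP.mono hQ key).mono fun a ha => ?_)
  linarith

/-- weak repulsion of the zeros along `F` -/
def WR (F : Filter ℝ) : Prop := ∀ ε : ℝ, 0 < ε → ∃ y₀ : ℝ, 0 < y₀ ∧ ∀ y : ℝ, 0 < y → y < y₀ →
  ∀ᶠ T in F, (G.N T (-y) y : ℝ) ≤ (1 + ε * y) * G.X T

lemma N_Aa {T : ℝ} (hT : 1 < T) (y : ℝ) : (G.N T (-y) y : ℝ) = Aa T y * G.X T := by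
  rw [G.N_eq hT, G.X_eq]
  unfold Aa
  have h2 : {x : ℝ | |x| ≤ y} = Set.Icc (-y) y := by
    ext x
    show |x| ≤ y ↔ -y ≤ x ∧ x ≤ y
    rw [abs_le]
  rw [h2, mul_comm (Xf T)⁻¹, inv_mul_cancel_right₀ (Xf_pos hT).ne']

/-- **lower bounds suffice**, under weak repulsion -/
theorem mont_of_lower (RH : RiemannHypothesis) {F : Filter ℝ} (hF : F ≤ atTop) {Q : Set ℝ}
    (hQ : Dense Q) {ℓ : ℝ} (hℓ : 0 < ℓ) (hyp : ∀ a ∈ Q, a ≠ 0 → a + ℓ ≠ 0 → ∀ δ, 0 < δ →
      ∀ᶠ T in F, M a (a + ℓ) - δ ≤ J T a (a + ℓ)) (hW : WR F) : G.Montgomery F := by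
  refine mont_of_limits RH hF fun g hg A' Φ C0 C1 C2 hP hlim hlim1 => ?_
  have hne : NeBot (g : Filter ℝ) := g.neBot
  have key : ∀ a ∈ Q, a ≠ 0 → a + ℓ ≠ 0 →
      -1 * (Φ (a + ℓ) - Φ a) ≤ -1 * (Pg (a + ℓ) - Pg a) := by
    intro a ha ha0 hl0
    have h3 : Pg (a + ℓ) - Pg a ≤ Φ (a + ℓ) - Φ a := by
      refine le_of_forall_pos_le_add fun δ hδ => ?_
      have h4 : Pg (a + ℓ) - Pg a - δ ≤ Φ (a + ℓ) - Φ a := by
        refine ge_of_tendsto (window_lim (hg.trans hF) hlim1 a (a + ℓ)) ?_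
        filter_upwards [hg (hyp a ha ha0 hl0 δ hδ)] with T h2
        rw [M_eq (by linarith) ha0 hl0] at h2
        exact h2
      linarith
    linarith
  refine hP.of_lower hℓ ((ae_of_dense hP.mono hQ key).mono fun a ha => by linarith)
    fun ε hε => ?_
  obtain ⟨y0, hy0, hy⟩ := hW ε hε
  refine ⟨y0, hy0, fun y hy1 hy2 => ?_⟩
  refine le_of_tendsto (hlim y) ?_
  filter_upwards [hg (hy y hy1 hy2), (hg.trans hF) (eventually_gt_atTop (1 : ℝ))] with T h1 h2
  rw [N_Aa h2] at h1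
  have hX : 0 < G.X T := by
    rw [G.X_eq]
    exact Xf_pos h2
  exact le_of_mul_le_mul_right h1 hX

/-- the conjecture implies weak repulsion -/
lemma WR_of_Mont {F : Filter ℝ} (hF : F ≤ atTop) (hM : G.Montgomery F) : WR F := by
  intro ε hε
  have h0 : gd 0 = 0 := by
    unfold gd
    rw [mul_zero, Real.sinc_zero]
    norm_num
  have h1 : ∀ᶠ u in 𝓝 (0 : ℝ), gd u < ε / 4 := by
    refine gd_cont.continuousAt.eventually_lt_const ?_
    rw [h0]
    positivity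
  obtain ⟨y0, hy0, h2⟩ := Metric.eventually_nhds_iff.1 h1
  refine ⟨y0, hy0, fun y hy1 hy2 => ?_⟩
  have h3 : gp y ≤ ε / 4 * y := by
    have := intervalIntegral.integral_mono_on hy1.le (gd_cont.intervalIntegrable 0 y)
      (intervalIntegrable_const : IntervalIntegrable (fun _ => (ε / 4 : ℝ)) volume 0 y)
      fun u hu => (h2 (show dist u 0 < y0 by
        rw [Real.dist_eq, sub_zero, abs_of_nonneg hu.1]
        linarith [hu.2])).le
    simp only [intervalIntegral.integral_const, smul_eq_mul, sub_zero] at this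
    have h4 : gp y = ∫ u in (0 : ℝ)..y, gd u := rfl
    linarith
  have h5 := small_of_mont hF hM (α := -y) (β := y) (by linarith)
    (ε := ε / 2 * y) (by positivity)
  filter_upwards [h5, hF (eventually_gt_atTop (1 : ℝ))] with T h6 h7
  rw [G.D_eq h7] at h6
  have h8 : pr (-y) y = 1 + 2 * gp y := by
    unfold pr
    rw [Set.indicator_of_mem (show (0 : ℝ) ∈ Set.Icc (-y) y from ⟨by linarith, hy1.le⟩), gp_odd]
    ring
  have hX : 0 < Xf T := Xf_pos h7
  rw [h8] at h6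
  have h9 := (abs_le.1 h6).2
  unfold Nr at h9
  rw [G.N_eq h7, G.X_eq]
  rw [sub_le_iff_le_add, div_le_iff₀ hX] at h9
  refine h9.trans (mul_le_mul_of_nonneg_right ?_ hX.le)
  nlinarith

end Pool.Agent.W2helper22.UB
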