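import Pool.Agent.W2helper22.UB.Fin3

/-! # The finite forms of the criterion -/

set_option autoImplicit false

open MeasureTheory Filter Topology Real
open Pool.Agent.Y744

namespace Pool.Agent.W2helper22.UB

open Pool.Agent.W2helper22.PC

/-- **finitely many upper bounds at a single height** -/
theorem finite_upper (RH : RiemannHypothesis) {Q : Set ℝ} (hQ : Dense Q) {ℓ : ℝ} (hℓ : 0 < ℓ)
    {R : ℝ → Prop} (hR : ∀ F : Filter ℝ, F ≤ atTop → G.Montgomery F → ∀ᶠ T in F, R T) :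
    ∃ (𝒜 : Finset ℝ) (δ T₀ : ℝ), (∀ a ∈ 𝒜, a ∈ Q ∧ a ≠ 0 ∧ a + ℓ ≠ 0) ∧
      0 < δ ∧ ∀ T, T₀ ≤ T → (∀ a ∈ 𝒜, J T a (a + ℓ) ≤ M a (a + ℓ) + δ) → R T := by
  classical
  by_contra hcon
  push Not at hcon
  set I := {a : ℝ // a ∈ Q ∧ a ≠ 0 ∧ a + ℓ ≠ 0} with hI
  have hex : ∀ i : Finset I × ℕ, ∃ T : ℝ, (i.2 : ℝ) ≤ T ∧
      (∀ x ∈ i.1, J T x.1 (x.1 + ℓ) ≤ M x.1 (x.1 + ℓ) + 1 / ((i.2 : ℝ) + 1)) ∧ ¬ R T := by
    rintro ⟨𝒜, N⟩
    obtain ⟨T, hT1, hT2, hT3⟩ := hcon (𝒜.image Subtype.val) (1 / ((N : ℝ) + 1)) N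
      (fun x hx => by
        obtain ⟨y, _, rfl⟩ := Finset.mem_image.1 hx
        exact y.2) (by positivity)
    exact ⟨T, hT1, fun x hx => hT2 x.1 (Finset.mem_image.2 ⟨x, hx, rfl⟩), hT3⟩
  choose t ht1 ht2 ht3 using hex
  have htt : Tendsto t atTop atTop := by
    refine tendsto_atTop_mono ht1 (tendsto_natCast_atTop_atTop.comp ?_)
    rw [← prod_atTop_atTop_eq]
    exact tendsto_snd
  have hF : map t atTop ≤ (atTop : Filter ℝ) := htt
  have hyp : ∀ a ∈ Q, a ≠ 0 → a + ℓ ≠ 0 → ∀ δ, 0 < δ → ∀ᶠ T in map t atTop,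
      J T a (a + ℓ) ≤ M a (a + ℓ) + δ := by
    intro a ha ha0 hal δ hδ
    rw [eventually_map]
    obtain ⟨N, hN⟩ := exists_nat_one_div_lt hδ
    filter_upwards [eventually_ge_atTop (({⟨a, ha, ha0, hal⟩} : Finset I), N)] with i hi
    have h1 : (⟨a, ha, ha0, hal⟩ : I) ∈ i.1 := hi.1 (Finset.mem_singleton_self _)
    have h2 : N ≤ i.2 := hi.2
    have h4 : (N : ℝ) ≤ i.2 := by exact_mod_cast h2
    have h5 : 1 / ((i.2 : ℝ) + 1) ≤ 1 / ((N : ℝ) + 1) :=
      one_div_le_one_div_of_le (by positivity) (by linarith)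
    show J (t i) a (a + ℓ) ≤ M a (a + ℓ) + δ
    have h6 : J (t i) a (a + ℓ) ≤ M a (a + ℓ) + 1 / ((i.2 : ℝ) + 1) := ht2 i _ h1
    linarith
  have h1 := hR _ hF (mont_of_upper RH hF hQ hℓ hyp)
  rw [eventually_map] at h1
  obtain ⟨i, hi⟩ := h1.exists
  exact ht3 i hi

/-- the excess of Montgomery's function over `1` -/
noncomputable def Ex (T c A : ℝ) : ℝ :=
  ∫ α in c..A, max ((Pool.Agent.Results.MP_103a5c_nt.LongAverages.F α T).re - 1) 0

lemma Ex_eq {T : ℝ} (hT : 1 < T) (c A : ℝ) : Ex T c A = ∫ α in c..A, max (FT T α - 1) 0 :=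
  intervalIntegral.integral_congr fun α _ => by
    show max _ _ = max _ _
    rw [FT_eq α hT]

lemma ex_bound {T : ℝ} {c s t A : ℝ} (hcs : c ≤ s) (hst : s ≤ t) (htA : t ≤ A) :
    Ph T t - Ph T s ≤ (t - s) + ∫ α in c..A, max (FT T α - 1) 0 := by
  have hcont : Continuous fun α => max (FT T α - 1) 0 := by
    have := FT_cont T
    fun_prop
  rw [Ph_sub]
  have h1 : ∫ α in s..t, FT T α ≤ ∫ α in s..t, (1 + max (FT T α - 1) 0) := by
    refine intervalIntegral.integral_mono_on hst (FT_int T _ _)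
      ((continuous_const.add hcont).intervalIntegrable _ _) fun α _ => ?_
    have := le_max_left (FT T α - 1) 0
    linarith
  have h2 : ∫ α in s..t, (1 + max (FT T α - 1) 0) = (t - s) + ∫ α in s..t, max (FT T α - 1) 0 := by
    rw [intervalIntegral.integral_add intervalIntegrable_const (hcont.intervalIntegrable _ _)]
    simp
  have h3 : ∫ α in s..t, max (FT T α - 1) 0 ≤ ∫ α in c..A, max (FT T α - 1) 0 := by
    refine intervalIntegral.integral_mono_interval hcs hst htA
      (Eventually.of_forall fun α => le_max_right _ _) (hcont.intervalIntegrable _ _)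
  linarith

/-- **the upper half of Montgomery's conjecture for `F` implies the pair correlation
conjecture** -/
theorem mont_of_excess (RH : RiemannHypothesis) {F : Filter ℝ} (hF : F ≤ atTop) {c : ℝ}
    (hc0 : 0 < c) (hc : c < 1)
    (hyp : ∀ A, c < A → ∀ δ, 0 < δ → ∀ᶠ T in F, Ex T c A ≤ δ) : G.Montgomery F := by
  refine mont_of_limits RH hF fun g hg A' Φ C0 C1 C2 hP hlim hlim1 => ?_
  have hne : NeBot (g : Filter ℝ) := g.neBot
  have key : ∀ s t, c ≤ s → s < t → Φ t - Φ s ≤ t - s := by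
    intro s t hs hst
    refine le_of_forall_pos_le_add fun δ hδ => ?_
    refine le_of_tendsto ((hlim1 t).sub (hlim1 s)) ?_
    filter_upwards [hg (hyp t (by linarith) δ hδ),
      (hg.trans hF) (eventually_gt_atTop (1 : ℝ))] with T h2 h3
    rw [Ex_eq h3] at h2
    have := ex_bound (T := T) hs hst.le le_rfl
    linarith
  have hpos : ∀ a, 0 < a → Φ (a + 1) - Φ a ≤ Pg (a + 1) - Pg a := by
    intro a ha
    have hP1 : Pg (a + 1) = a + 1 := by
      rw [Pg_pos (by linarith), Mp_large (by linarith)]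
      ring
    rcases le_or_gt 1 a with h2 | h2
    · have h3 := key a (a + 1) (by linarith) (by linarith)
      have hPa : Pg a = a := by
        rw [Pg_pos ha, Mp_large h2]
        ring
      rw [hP1, hPa]
      exact h3
    · refine le_of_forall_pos_le_add fun δ hδ => ?_
      set b := max (max ((a + 1) / 2) ((c + 1) / 2)) (1 - δ) with hb
      have hb1 : (a + 1) / 2 ≤ b := (le_max_left _ _).trans (le_max_left _ _)
      have hb2 : (c + 1) / 2 ≤ b := (le_max_right _ _).trans (le_max_left _ _)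
      have hb3 : 1 - δ ≤ b := le_max_right _ _
      have hb4 : b < 1 := max_lt (max_lt (by linarith) (by linarith)) (by linarith)
      have h3 := key b (a + 1) (by linarith) (by linarith)
      have h4 := hP.small b (by linarith) hb4
      have h5 := hP.small a ha h2
      have h6 := Pg_mono hb4.le
      have h7 : Pg 1 = 1 := by
        rw [Pg_pos one_pos, Mp_large le_rfl]
        norm_num
      rw [hP1]
      linarith
  refine hP.of_upper one_pos ?_
  have h0 : ∀ᵐ x : ℝ, x ≠ 0 := by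
    rw [ae_iff]
    simp
  have h1 := (measurePreserving_add_right (volume : Measure ℝ) 1).quasiMeasurePreserving.ae h0
  filter_upwards [h0, h1] with a a0 a1
  rcases lt_or_gt_of_ne a0 with ha | ha
  · rcases lt_or_gt_of_ne a1 with ha1 | ha1
    · -- symmetry
      have h2 := hpos (-(a + 1)) (by linarith)
      rw [show -(a + 1) + 1 = -a by ring, hP.odd, hP.odd, Pg_odd, Pg_odd] at h2
      linarith
    · have h2 := hP.small (a + 1) ha1 (by linarith)
      have h3 := hP.small (-a) (by linarith) (by linarith)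
      rw [hP.odd, Pg_odd] at h3
      linarith
  · exact hpos a ha

/-- the finite form -/
theorem finite_excess (RH : RiemannHypothesis) {c : ℝ} (hc0 : 0 < c) (hc : c < 1)
    {R : ℝ → Prop} (hR : ∀ F : Filter ℝ, F ≤ atTop → G.Montgomery F → ∀ᶠ T in F, R T) :
    ∃ A δ T₀ : ℝ, 0 < δ ∧ ∀ T, T₀ ≤ T → Ex T c A ≤ δ → R T := by
  by_contra hcon
  push Not at hcon
  have hex : ∀ N : ℕ, ∃ T : ℝ, (N : ℝ) ≤ T ∧ Ex T c N ≤ 1 / ((N : ℝ) + 1) ∧ ¬ R T := by
    intro N
    obtain ⟨T, hT1, hT2, hT3⟩ := hcon N (1 / ((N : ℝ) + 1)) N (by positivity)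
    exact ⟨T, hT1, hT2, hT3⟩
  choose t ht1 ht2 ht3 using hex
  have htt : Tendsto t atTop atTop := tendsto_atTop_mono ht1 tendsto_natCast_atTop_atTop
  have hF : map t atTop ≤ (atTop : Filter ℝ) := htt
  have hyp : ∀ A, c < A → ∀ δ, 0 < δ → ∀ᶠ T in map t atTop, Ex T c A ≤ δ := by
    intro A hA δ hδ
    rw [eventually_map]
    have h1 : ∀ᶠ N : ℕ in atTop, 1 / ((N : ℝ) + 1) < δ :=
      (tendsto_order.1 tendsto_one_div_add_atTop_nhds_zero_nat).2 δ hδ
    filter_upwards [h1, eventually_ge_atTop (⌈A⌉₊ : ℕ), eventually_gt_atTop 1] with N hN hNA hN1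
    have h2 := ht2 N
    have hAN : A ≤ N := (Nat.le_ceil A).trans (by exact_mod_cast hNA)
    have hT : 1 < t N := by
      have h3 := ht1 N
      have h4 : (1 : ℝ) < N := by exact_mod_cast hN1
      linarith
    rw [Ex_eq hT] at h2 ⊢
    have hcont : Continuous fun α => max (FT (t N) α - 1) 0 := by
      have := FT_cont (t N)
      fun_prop
    have h5 : ∫ α in c..A, max (FT (t N) α - 1) 0 ≤ ∫ α in c..N, max (FT (t N) α - 1) 0 :=
      intervalIntegral.integral_mono_interval le_rfl hA.le hAN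
        (Eventually.of_forall fun α => le_max_right _ _) (hcont.intervalIntegrable _ _)
    linarith
  have h1 := hR _ hF (mont_of_excess RH hF hc0 hc hyp)
  rw [eventually_map] at h1
  obtain ⟨N, hN⟩ := h1.exists
  exact ht3 N hN

/-- the properties that are controlled -/
lemma R_ok (RH : RiemannHypothesis) {α β a b ε : ℝ} (hαβ : α < β) (hab : a < b) (ha : a ≠ 0)
    (hb : b ≠ 0) (hε : 0 < ε) (F : Filter ℝ) (hF : F ≤ atTop) (hM : G.Montgomery F) :
    ∀ᶠ T in F, |G.D T α β| ≤ ε ∧ |J T a b - M a b| ≤ ε := by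
  refine (small_of_mont hF hM hαβ hε).and ?_
  filter_upwards [(Metric.tendsto_nhds.1 (all_windows RH hF hM hab ha hb)) ε hε] with T hT
  rw [Real.dist_eq] at hT
  exact hT.le

end Pool.Agent.W2helper22.UB
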