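import Pool.Agent.W2helper22.UB.Core
import Pool.Agent.W2helper22.UB.Sinc

/-! # The prediction: duality between the two sides for all the test functions -/

set_option autoImplicit false

open MeasureTheory Filter Topology Real
open Pool.Agent.Y744

namespace Pool.Agent.W2helper22.UB

variable {κ : ℝ} {ψ : ℝ → ℝ}

lemma ct_RR (hψ : TK κ ψ) (x : ℝ) : H370.A2.RR ψ (κ + 1) x = ct ψ x := by
  unfold H370.A2.RR ct
  rw [intervalIntegral.integral_eq_integral_of_support_subset]
  · refine integral_congr_ae (Eventually.of_forall fun α => ?_)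
    show ψ α * Real.cos (2 * π * α * x) = ψ α * Real.cos (2 * π * x * α)
    congr 2
    ring
  · intro α hα
    by_contra h
    apply hα
    show ψ α * _ = 0
    have : κ < |α| := by
      by_contra h2
      push Not at h2
      obtain ⟨h3, h4⟩ := abs_le.1 h2
      exact h ⟨by linarith, by linarith⟩
    rw [hψ.supp α this, zero_mul]

lemma evp_eq (hψ : TK κ ψ) : H370.A2.evp ψ = ψ := by
  funext x
  unfold H370.A2.evp
  rw [hψ.even]
  ring

lemma RR_dec (hψ : TK κ ψ) : ∃ C, ∀ x, |H370.A2.RR ψ (κ + 1) x| * x ^ 2 ≤ C := by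
  obtain ⟨D, hD0, hD⟩ := hψ.decay 1
  refine ⟨D, fun x => ?_⟩
  rw [ct_RR hψ]
  have h1 := hD x
  rw [pow_one, le_div_iff₀ (by positivity)] at h1
  have := abs_nonneg (ct ψ x)
  linarith

lemma TK_zero (hψ : TK κ ψ) (x : ℝ) (hx : κ + 1 ≤ |x|) : ψ x = 0 := hψ.supp x (by linarith)

/-- Fourier inversion -/
lemma ct_inv (hψ : TK κ ψ) (β : ℝ) : ∫ x, ct ψ x * Real.cos (2 * π * x * β) = ψ β := by
  obtain ⟨C, hC⟩ := RR_dec hψ
  have h := H370.A2.RR_inv hψ.cont (TK_zero hψ) hC β
  rw [evp_eq hψ] at h
  rw [← h]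
  simp_rw [ct_RR hψ]

lemma ct_integrable (hψ : TK κ ψ) : Integrable (ct ψ) := by
  obtain ⟨C, hC⟩ := RR_dec hψ
  have h := H370.A2.RR_integrable hψ.cont (TK_zero hψ) hC
  have e : H370.A2.RR ψ (κ + 1) = ct ψ := funext (ct_RR hψ)
  rwa [e] at h

/-- the integral against the Fejér kernel -/
lemma ct_fejer (hψ : TK κ ψ) : ∫ x, ct ψ x * Real.sinc (π * x) ^ 2 =
    ∫ β in (-1 : ℝ)..1, (1 - |β|) * ψ β := by
  have hRi := ct_integrable hψ
  have hRc := hψ.ct_cont
  have h1 : ∫ x, ct ψ x * Real.sinc (π * x) ^ 2 =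
      ∫ x, ∫ β in Set.Ioc (-1 : ℝ) 1, ct ψ x * ((1 - |β|) * Real.cos (2 * π * x * β)) := by
    refine integral_congr_ae ?_
    have h0 : ∀ᵐ x : ℝ, x ≠ 0 := by
      rw [ae_iff]
      simp
    filter_upwards [h0] with x hx
    have hpi := Real.pi_pos
    rw [Real.sinc_of_ne_zero (by positivity), ← H370.A2.fejer hx,
      intervalIntegral.integral_of_le (by norm_num), integral_const_mul]
  have hint : Integrable (Function.uncurry fun x β : ℝ =>
      ct ψ x * ((1 - |β|) * Real.cos (2 * π * x * β)))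
      (volume.prod (volume.restrict (Set.Ioc (-1 : ℝ) 1))) := by
    have hc1 : Integrable (fun β : ℝ => 1 - |β|) (volume.restrict (Set.Ioc (-1 : ℝ) 1)) :=
      ((by fun_prop : Continuous fun β : ℝ => 1 - |β|).integrableOn_Icc).mono_set
        Set.Ioc_subset_Icc_self
    refine (hRi.norm.mul_prod hc1.norm).mono' ?_ (Filter.Eventually.of_forall fun z => ?_)
    · apply Continuous.aestronglyMeasurable
      unfold Function.uncurry
      fun_prop
    · simp only [Function.uncurry]
      rw [norm_mul, norm_mul]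
      have := Real.abs_cos_le_one (2 * π * z.1 * z.2)
      rw [← Real.norm_eq_abs] at this
      calc ‖ct ψ z.1‖ * (‖1 - |z.2|‖ * ‖Real.cos (2 * π * z.1 * z.2)‖) ≤
          ‖ct ψ z.1‖ * (‖1 - |z.2|‖ * 1) := by gcongr
        _ = _ := by ring
  rw [h1, integral_integral_swap hint, intervalIntegral.integral_of_le (by norm_num)]
  refine integral_congr_ae (Filter.Eventually.of_forall fun β => ?_)
  show ∫ x, ct ψ x * ((1 - |β|) * Real.cos (2 * π * x * β)) = (1 - |β|) * ψ β
  rw [← ct_inv hψ β, ← integral_const_mul]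
  refine integral_congr_ae (Filter.Eventually.of_forall fun x => ?_)
  show ct ψ x * ((1 - |β|) * Real.cos (2 * π * x * β)) = _
  ring

lemma min_id (β : ℝ) : 1 - min |β| 1 = max (1 - |β|) 0 := by
  rcases le_total |β| 1 with h | h
  · rw [min_eq_left h, max_eq_left (by linarith)]
  · rw [min_eq_right h, max_eq_right (by linarith), sub_self]

/-- **duality** -/
lemma gue_id (hψ : TK κ ψ) : ct ψ 0 + ∫ y, ct ψ y * gd y = ψ 0 + ∫ α, ψ α * min |α| 1 := by
  have hRi := ct_integrable hψ
  have hRc := hψ.ct_cont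
  have h0 : ∫ x, ct ψ x = ψ 0 := by
    have h1 := ct_inv hψ 0
    simp only [mul_zero, Real.cos_zero, mul_one] at h1
    exact h1
  have hsi : Integrable fun x => ct ψ x * Real.sinc (π * x) ^ 2 := by
    refine hRi.norm.mono' ?_ (Filter.Eventually.of_forall fun x => ?_)
    · have := Real.continuous_sinc
      apply Continuous.aestronglyMeasurable
      exact hRc.mul ((this.comp (by fun_prop)).pow 2)
    · rw [norm_mul, norm_pow]
      have h2 : ‖Real.sinc (π * x)‖ ^ 2 ≤ 1 := pow_le_one₀ (norm_nonneg _) (by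
        rw [Real.norm_eq_abs]
        exact Real.abs_sinc_le_one _)
      exact mul_le_of_le_one_right (norm_nonneg _) h2
  have hsplit : ∫ y, ct ψ y * gd y = ψ 0 - ∫ β in (-1 : ℝ)..1, (1 - |β|) * ψ β := by
    rw [← h0, ← ct_fejer hψ, ← integral_sub hRi hsi]
    refine integral_congr_ae (Filter.Eventually.of_forall fun x => ?_)
    show ct ψ x * gd x = _
    unfold gd
    ring
  have hc0 : ct ψ 0 = ∫ α, ψ α := by
    unfold ct
    refine integral_congr_ae (Filter.Eventually.of_forall fun x => ?_)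
    show ψ x * Real.cos (2 * π * 0 * x) = ψ x
    rw [mul_zero, zero_mul, Real.cos_zero, mul_one]
  have hm : ∫ β in (-1 : ℝ)..1, (1 - |β|) * ψ β = ∫ β, ψ β * (1 - min |β| 1) := by
    have e1 : ∫ β in (-1 : ℝ)..1, (1 - |β|) * ψ β = ∫ β in (-1 : ℝ)..1, ψ β * (1 - min |β| 1) := by
      refine intervalIntegral.integral_congr fun β hβ => ?_
      rw [Set.uIcc_of_le (by norm_num)] at hβ
      show (1 - |β|) * ψ β = ψ β * (1 - min |β| 1)
      rw [min_eq_left (abs_le.2 hβ)]
      ring
    rw [e1, intervalIntegral.integral_eq_integral_of_support_subset]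
    intro β hβ
    by_contra h
    apply hβ
    show ψ β * (1 - min |β| 1) = 0
    have : 1 ≤ |β| := by
      by_contra h2
      push Not at h2
      obtain ⟨h3, h4⟩ := abs_lt.1 h2
      exact h ⟨h3, h4.le⟩
    rw [min_eq_right this, sub_self, mul_zero]
  have hmin : Integrable fun α => ψ α * min |α| 1 := hψ.mul_int (by fun_prop)
  have hm2 : ∫ β, ψ β * (1 - min |β| 1) = (∫ β, ψ β) - ∫ α, ψ α * min |α| 1 := by
    rw [← integral_sub hψ.integrable hmin]
    refine integral_congr_ae (Filter.Eventually.of_forall fun x => ?_)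
    show ψ x * (1 - min |x| 1) = ψ x - ψ x * min |x| 1
    ring
  rw [hsplit, hc0, hm, hm2]
  ring

lemma deriv_ψ_int (hψ : TK κ ψ) : Integrable (deriv ψ) :=
  (TK.deriv_smooth hψ.smooth).continuous.integrable_of_hasCompactSupport hψ.hcs.deriv

/-- the other side of the prediction -/
lemma Pg_parts (hψ : TK κ ψ) : ∫ α, Pg α * deriv ψ α = -(ψ 0 + ∫ α, ψ α * min |α| 1) := by
  have hd1 : Differentiable ℝ ψ := hψ.smooth.differentiable (by simp)
  have hs1 := TK.deriv_smooth hψ.smooth
  have hc1 : HasCompactSupport (deriv ψ) := hψ.hcs.deriv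
  have iM : Integrable fun α => deriv ψ α * Mp α :=
    (hs1.continuous.mul Mp_cont).integrable_of_hasCompactSupport hc1.mul_right
  have h := integral_mul_deriv_eq_deriv_mul_of_integrable (u := ψ) (v := Mp)
    (u' := deriv ψ) (v' := fun α => min |α| 1) (fun α _ => (hd1 α).hasDerivAt)
    (fun α _ => Mp_deriv α) (hψ.mul_int mn_cont) iM (hψ.mul_int Mp_cont)
  have h1 : ∫ α, ψ α * min |α| 1 = -∫ α, deriv ψ α * Mp α := h
  have iD := deriv_ψ_int hψ
  have hev : Tendsto ψ atTop (𝓝 0) := by
    refine (tendsto_congr' ?_).2 tendsto_const_nhds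
    filter_upwards [eventually_gt_atTop κ] with x hx
    exact hψ.supp x (hx.trans_le (le_abs_self x))
  have hev2 : Tendsto ψ atBot (𝓝 0) := by
    refine (tendsto_congr' ?_).2 tendsto_const_nhds
    filter_upwards [eventually_lt_atBot (-κ)] with x hx
    exact hψ.supp x ((by linarith : κ < -x).trans_le (neg_le_abs x))
  have i1 : ∫ α in Set.Ioi (0 : ℝ), deriv ψ α = -ψ 0 := by
    rw [integral_Ioi_of_hasDerivAt_of_tendsto' (fun y _ => (hd1 y).hasDerivAt) iD.integrableOn hev]
    ring
  have i2 : ∫ α in Set.Iic (0 : ℝ), deriv ψ α = ψ 0 := by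
    rw [integral_Iic_of_hasDerivAt_of_tendsto' (fun y _ => (hd1 y).hasDerivAt) iD.integrableOn hev2]
    ring
  have hsm : Measurable fun α : ℝ => Real.sign α := by
    have : Monotone fun α : ℝ => Real.sign α := by
      intro a b hab
      show Real.sign a ≤ Real.sign b
      rcases lt_trichotomy a 0 with ha | rfl | ha
      · rw [Real.sign_of_neg ha]
        rcases Real.sign_apply_eq b with h | h | h <;> rw [h] <;> norm_num
      · rcases hab.eq_or_lt with rfl | hb
        · exact le_rfl
        · rw [Real.sign_of_pos hb, Real.sign_zero]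
          exact zero_le_one
      · rw [Real.sign_of_pos ha, Real.sign_of_pos (ha.trans_le hab)]
    exact this.measurable
  have iS : Integrable fun α => deriv ψ α * Real.sign α := by
    refine iD.norm.mono' (iD.aestronglyMeasurable.mul hsm.aestronglyMeasurable)
      (Eventually.of_forall fun α => ?_)
    rw [norm_mul]
    refine mul_le_of_le_one_right (norm_nonneg _) ?_
    rcases Real.sign_apply_eq α with h | h | h <;> rw [h] <;> norm_num
  have e3 : ∫ α, deriv ψ α * Real.sign α = -2 * ψ 0 := by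
    rw [← integral_add_compl (measurableSet_Iic (a := (0 : ℝ))) iS, Set.compl_Iic]
    have e4 : ∫ α in Set.Iic (0 : ℝ), deriv ψ α * Real.sign α = -ψ 0 := by
      rw [← i2, integral_Iic_eq_integral_Iio, integral_Iic_eq_integral_Iio, ← integral_neg]
      refine setIntegral_congr_fun measurableSet_Iio fun α hα => ?_
      show deriv ψ α * Real.sign α = -deriv ψ α
      rw [Real.sign_of_neg hα]
      ring
    have e5 : ∫ α in Set.Ioi (0 : ℝ), deriv ψ α * Real.sign α = -ψ 0 := by
      rw [← i1]
      refine setIntegral_congr_fun measurableSet_Ioi fun α hα => ?_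
      show deriv ψ α * Real.sign α = deriv ψ α
      rw [Real.sign_of_pos hα]
      ring
    rw [e4, e5]
    ring
  have e6 : ∫ α, Pg α * deriv ψ α = (∫ α, deriv ψ α * Mp α) +
      (∫ α, deriv ψ α * Real.sign α) / 2 := by
    rw [← integral_div, ← integral_add iM (iS.div_const 2)]
    refine integral_congr_ae (Filter.Eventually.of_forall fun x => ?_)
    show Pg x * deriv ψ x = deriv ψ x * Mp x + deriv ψ x * Real.sign x / 2
    unfold Pg
    ring
  rw [e6, e3, h1]
  ring

/-- **the prediction for the counting function and for Montgomery's function** -/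
theorem gue_link {K : ℝ → ℝ} (hK : TK κ K) {h : ℝ} (hh : 0 < h) :
    ∫ y, AG y * (ct K (y + h) - ct K (y - h)) = ∫ α, Pg α * deriv (Kav K h) α := by
  rw [AG_int hK hh, Pg_parts (Kav_TK hK h), ← gue_id (Kav_TK hK h), fav_eq hK hh]
  congr 2
  refine integral_congr_ae (Filter.Eventually.of_forall fun x => ?_)
  show fav K h x * gd x = ct (Kav K h) x * gd x
  rw [fav_eq hK hh]

end Pool.Agent.W2helper22.UB
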