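import Pool.Agent.W2helper22.UB.FT
import Pool.Agent.W2helper22.UB.Inv
import Pool.Agent.W2helper22.PC.Bdd

/-! # The limits along ultrafilters -/

set_option autoImplicit false

open MeasureTheory Filter Topology Real
open Pool.Agent.Y744

namespace Pool.Agent.W2helper22.UB

open Pool.Agent.W2helper22.PC

/-- passage to the limit in the integrals -/
lemma tendsto_int {A : ℝ → ℝ → ℝ} {T0 C : ℝ} (hmono : ∀ T, T0 ≤ T → Monotone (A T))
    (hb : ∀ T, T0 ≤ T → ∀ y, |A T y| ≤ C * (1 + y ^ 2)) {w : ℝ → ℝ} (hw : Measurable w) {D : ℝ}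
    (hwd : ∀ y, |w y| ≤ D / (1 + y ^ 2) ^ 2) {u : Filter ℝ}
    (hu : u ≤ atTop) {A' : ℝ → ℝ} (hA' : Monotone A')
    (hlim : ∀ y, Tendsto (fun T => A T y) u (𝓝 (A' y))) :
    Tendsto (fun T => ∫ y, A T y * w y) u (𝓝 (∫ y, A' y * w y)) := by
  have hC : 0 ≤ C := by
    have := (abs_nonneg _).trans (hb T0 le_rfl 0)
    simpa using this
  by_contra hcon
  rw [not_tendsto_iff_exists_frequently_notMem] at hcon
  obtain ⟨s, hs, hfr⟩ := hcon
  set B : Set ℝ := {T | ∫ y, A T y * w y ∉ s} with hB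
  have hne : NeBot (u ⊓ 𝓟 B) := frequently_iff_neBot.1 hfr
  set q : ℕ → ℝ := TopologicalSpace.denseSeq ℝ with hq
  have hqd : DenseRange q := TopologicalSpace.denseRange_denseSeq ℝ
  have hex : ∀ n : ℕ, ∃ T : ℝ, max (n : ℝ) T0 ≤ T ∧
      (∀ j ∈ Finset.range (n + 1), |A T (q j) - A' (q j)| < 1 / ((n : ℝ) + 1)) ∧ T ∈ B := by
    intro n
    have h1 : ∀ᶠ T in u, max (n : ℝ) T0 ≤ T := hu (eventually_ge_atTop _)
    have h2 : ∀ᶠ T in u, ∀ j ∈ Finset.range (n + 1), |A T (q j) - A' (q j)| < 1 / ((n : ℝ) + 1) := by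
      rw [Filter.eventually_all_finset]
      intro j _
      have := (Metric.tendsto_nhds.1 (hlim (q j))) (1 / ((n : ℝ) + 1)) (by positivity)
      simpa [Real.dist_eq] using this
    have h3 : ∀ᶠ T in u ⊓ 𝓟 B, T ∈ B := mem_inf_of_right (mem_principal_self B)
    have h4 : ∀ᶠ T in u ⊓ 𝓟 B, max (n : ℝ) T0 ≤ T ∧ ∀ j ∈ Finset.range (n + 1),
        |A T (q j) - A' (q j)| < 1 / ((n : ℝ) + 1) := mem_inf_of_left (h1.and h2)
    obtain ⟨T, hT1, hT2⟩ := (h4.and h3).exists
    exact ⟨T, hT1.1, hT1.2, hT2⟩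
  choose t ht1 ht2 ht3 using hex
  have htT : ∀ n : ℕ, T0 ≤ t n := fun n => (le_max_right _ _).trans (ht1 n)
  have hj : ∀ j, Tendsto (fun n => A (t n) (q j)) atTop (𝓝 (A' (q j))) := by
    intro j
    rw [Metric.tendsto_nhds]
    intro ε hε
    have h1 : ∀ᶠ n : ℕ in atTop, 1 / ((n : ℝ) + 1) < ε :=
      (tendsto_order.1 tendsto_one_div_add_atTop_nhds_zero_nat).2 ε hε
    filter_upwards [h1, eventually_ge_atTop j] with n hn hnj
    rw [Real.dist_eq]
    exact (ht2 n j (Finset.mem_range.2 (by omega))).trans hn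
  have hcont : ∀ x, ContinuousAt A' x → Tendsto (fun n => A (t n) x) atTop (𝓝 (A' x)) := by
    intro x hx
    rw [tendsto_order]
    constructor
    · intro a ha
      have h1 : ∀ᶠ y in 𝓝 x, a < A' y := hx.eventually_const_lt ha
      obtain ⟨δ, hδ, h2⟩ := Metric.eventually_nhds_iff.1 h1
      obtain ⟨_, ⟨j, rfl⟩, hj1, hj2⟩ := hqd.exists_between (show x - δ < x by linarith)
      have h3 : a < A' (q j) := h2 (by rw [Real.dist_eq, abs_lt]; constructor <;> linarith)
      filter_upwards [(tendsto_order.1 (hj j)).1 a h3] with n hn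
      exact hn.trans_le (hmono _ (htT n) hj2.le)
    · intro a ha
      have h1 : ∀ᶠ y in 𝓝 x, A' y < a := hx.eventually_lt_const ha
      obtain ⟨δ, hδ, h2⟩ := Metric.eventually_nhds_iff.1 h1
      obtain ⟨_, ⟨j, rfl⟩, hj1, hj2⟩ := hqd.exists_between (show x < x + δ by linarith)
      have h3 : A' (q j) < a := h2 (by rw [Real.dist_eq, abs_lt]; constructor <;> linarith)
      filter_upwards [(tendsto_order.1 (hj j)).2 a h3] with n hn
      exact (hmono _ (htT n) hj1.le).trans_lt hn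
  have hae : ∀ᵐ x, ContinuousAt A' x := by
    have := hA'.countable_not_continuousAt
    exact this.ae_notMem volume |>.mono fun x hx => by
      by_contra hc
      exact hx hc
  have hD : Integrable fun y : ℝ => C * D * (1 + y ^ 2)⁻¹ :=
    integrable_inv_one_add_sq.const_mul _
  have h1 : Tendsto (fun n => ∫ y, A (t n) y * w y) atTop (𝓝 (∫ y, A' y * w y)) := by
    refine tendsto_integral_of_dominated_convergence _ (fun n => ?_) hD (fun n => ?_) ?_
    · exact ((hmono _ (htT n)).measurable.mul hw).aestronglyMeasurable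
    · refine Eventually.of_forall fun y => ?_
      rw [Real.norm_eq_abs, abs_mul]
      have h1 : 0 < 1 + y ^ 2 := by positivity
      calc |A (t n) y| * |w y| ≤ (C * (1 + y ^ 2)) * (D / (1 + y ^ 2) ^ 2) := by
            gcongr
            · exact hb _ (htT n) y
            · exact hwd y
        _ = C * D * (1 + y ^ 2)⁻¹ := by field_simp
    · filter_upwards [hae] with x hx
      exact (hcont x hx).mul_const _
  obtain ⟨n, hn⟩ := (h1.eventually hs).exists
  exact ht3 n hn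

/-- pointwise limits along an ultrafilter -/
lemma exists_lim {A : ℝ → ℝ → ℝ} {T0 C : ℝ} (hmono : ∀ T, T0 ≤ T → Monotone (A T))
    (hb : ∀ T, T0 ≤ T → ∀ y, |A T y| ≤ C * (1 + y ^ 2)) (g : Ultrafilter ℝ)
    (hgt : (g : Filter ℝ) ≤ atTop) : ∃ A' : ℝ → ℝ, Monotone A' ∧
      (∀ y, |A' y| ≤ C * (1 + y ^ 2)) ∧
      ∀ y, Tendsto (fun T => A T y) (g : Filter ℝ) (𝓝 (A' y)) := by
  have hT : ∀ᶠ T in (g : Filter ℝ), T0 ≤ T := hgt (eventually_ge_atTop _)
  have hex : ∀ y, ∃ L, Tendsto (fun T => A T y) (g : Filter ℝ) (𝓝 L) := by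
    intro y
    have h1 : ((g.map fun T => A T y : Ultrafilter ℝ) : Filter ℝ) ≤
        𝓟 (Set.Icc (-(C * (1 + y ^ 2))) (C * (1 + y ^ 2))) := by
      rw [le_principal_iff]
      have h2 : ∀ᶠ T in (g : Filter ℝ), A T y ∈
          Set.Icc (-(C * (1 + y ^ 2))) (C * (1 + y ^ 2)) := by
        filter_upwards [hT] with T hT1
        exact abs_le.1 (hb T hT1 y)
      exact h2
    obtain ⟨L, _, hL⟩ := isCompact_Icc.ultrafilter_le_nhds _ h1
    exact ⟨L, hL⟩
  choose A' hlim using hex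
  refine ⟨A', fun a b hab => ?_, fun y => ?_, hlim⟩
  · refine le_of_tendsto_of_tendsto (hlim a) (hlim b) ?_
    filter_upwards [hT] with T hT1 using hmono T hT1 hab
  · refine le_of_tendsto (hlim y).abs ?_
    filter_upwards [hT] with T hT1 using hb T hT1 y

/-- test functions with compact support decay -/
lemma cs_decay {w : ℝ → ℝ} {R B : ℝ} (hB : ∀ y, |w y| ≤ B) (hR : ∀ y, R < |y| → w y = 0) :
    ∃ D, ∀ y, |w y| ≤ D / (1 + y ^ 2) ^ 2 := by
  have hB0 : 0 ≤ B := (abs_nonneg _).trans (hB 0)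
  refine ⟨B * (1 + R ^ 2) ^ 2, fun y => ?_⟩
  by_cases hy : R < |y|
  · rw [hR y hy, abs_zero]
    positivity
  · push Not at hy
    rw [le_div_iff₀ (by positivity)]
    have h1 : y ^ 2 ≤ R ^ 2 := by
      rw [← sq_abs y]
      exact pow_le_pow_left₀ (abs_nonneg _) hy 2
    have h2 : (1 + y ^ 2) ^ 2 ≤ (1 + R ^ 2) ^ 2 := pow_le_pow_left₀ (by positivity) (by linarith) 2
    exact mul_le_mul (hB y) h2 (by positivity) hB0

/-- what is used about a pair of limits -/
structure Pair (A' Φ : ℝ → ℝ) (C0 C1 C2 : ℝ) : Prop where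
  lim : ∀ κ, 0 < κ → κ < 1 → Lim κ A' C0
  mono : Monotone Φ
  odd : ∀ s, Φ (-s) = -Φ s
  bd : ∀ s, |Φ s| ≤ C1 * (1 + s ^ 2)
  avg : ∀ A, 1 ≤ A → A ^ 2 / 2 ≤ ∫ s in (0 : ℝ)..A, Φ s
  link : ∀ κ K h, TK κ K → 0 < h →
    ∫ y, A' y * (ct K (y + h) - ct K (y - h)) = ∫ α, Φ α * deriv (Kav K h) α
  pos : ∀ κ ψ, TK κ ψ → (∀ x, 0 ≤ ct ψ x) → ct ψ 0 ≤ -∫ α, Φ α * deriv ψ α
  up : ∀ A, 1 ≤ A → ∫ s in (0 : ℝ)..A, Φ s ≤
    (∫ y in (π * A)⁻¹..1, A' y * (1 / (π ^ 2 * y ^ 3))) + C2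

/-- **the limits along an ultrafilter** -/
theorem exists_Pair (RH : RiemannHypothesis) (g : Ultrafilter ℝ) (hgt : (g : Filter ℝ) ≤ atTop) :
    ∃ (A' Φ : ℝ → ℝ) (C0 C1 C2 : ℝ), Pair A' Φ C0 C1 C2 ∧
      (∀ y, Tendsto (fun T => Aa T y) (g : Filter ℝ) (𝓝 (A' y))) ∧
      (∀ s, Tendsto (fun T => Ph T s) (g : Filter ℝ) (𝓝 (Φ s))) := by
  obtain ⟨C0, T0, hT0, hb⟩ := Aa_bound RH
  obtain ⟨C1, T1, hT1, hb1⟩ := Ph_bound RH
  have hmono : ∀ T, T0 ≤ T → Monotone (Aa T) := fun T hT => Aa_mono (by linarith)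
  have hmono1 : ∀ T, T1 ≤ T → Monotone (Ph T) := fun T hT => Ph_mono RH (by linarith)
  obtain ⟨A', hA', hA'b, hlim⟩ := exists_lim hmono hb g hgt
  obtain ⟨Φ, hΦ, hΦb, hlim1⟩ := exists_lim hmono1 hb1 g hgt
  obtain ⟨C2, T2, hT2, hup⟩ := Ph_upper RH
  -- the indicator functions of intervals
  have hIoc : ∀ (a b : ℝ) (ρ : ℝ → ℝ), 0 ≤ a → a ≤ b → Measurable ρ →
      (∃ B, ∀ y ∈ Set.Ioc a b, |ρ y| ≤ B) → ∀ {A : ℝ → ℝ → ℝ} {T0 C : ℝ},
      (∀ T, T0 ≤ T → Monotone (A T)) → (∀ T, T0 ≤ T → ∀ y, |A T y| ≤ C * (1 + y ^ 2)) →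
      ∀ {L : ℝ → ℝ}, Monotone L → (∀ y, Tendsto (fun T => A T y) (g : Filter ℝ) (𝓝 (L y))) →
      Tendsto (fun T => ∫ y in a..b, A T y * ρ y) (g : Filter ℝ) (𝓝 (∫ y in a..b, L y * ρ y)) := by
    intro a b ρ ha hab hρ hB A T0 C hm hb L hL hl
    obtain ⟨B, hB⟩ := hB
    obtain ⟨D, hD⟩ := cs_decay (w := (Set.Ioc a b).indicator ρ) (R := b) (B := |B|) (fun y => by
      by_cases h : y ∈ Set.Ioc a b
      · rw [Set.indicator_of_mem h]
        exact (hB y h).trans (le_abs_self _)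
      · rw [Set.indicator_of_notMem h, abs_zero]
        exact abs_nonneg _) (fun y hy => by
      refine Set.indicator_of_notMem (fun h => ?_) _
      rw [abs_of_pos (ha.trans_lt h.1)] at hy
      linarith [h.2])
    have h1 := tendsto_int hm hb (hρ.indicator measurableSet_Ioc) hD hgt hL hl
    have e : ∀ f : ℝ → ℝ, ∫ y, f y * (Set.Ioc a b).indicator ρ y = ∫ s in a..b, f s * ρ s := by
      intro f
      rw [intervalIntegral.integral_of_le hab, ← integral_indicator measurableSet_Ioc]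
      refine integral_congr_ae (Eventually.of_forall fun y => ?_)
      show f y * (Set.Ioc a b).indicator ρ y = _
      by_cases h : y ∈ Set.Ioc a b
      · rw [Set.indicator_of_mem h, Set.indicator_of_mem h]
      · rw [Set.indicator_of_notMem h, Set.indicator_of_notMem h, mul_zero]
    rw [e L] at h1
    exact h1.congr fun T => e (A T)
  have havg : ∀ A : ℝ, 0 ≤ A → Tendsto (fun T => ∫ s in (0 : ℝ)..A, Ph T s) (g : Filter ℝ)
      (𝓝 (∫ s in (0 : ℝ)..A, Φ s)) := by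
    intro A hA
    have h1 := hIoc 0 A (fun _ => 1) le_rfl hA measurable_const ⟨1, fun y _ => by norm_num⟩
      hmono1 hb1 hΦ hlim1
    simp only [mul_one] at h1
    exact h1
  refine ⟨A', Φ, C0, C1, C2, ⟨fun κ hκ0 hκ1 => ⟨hA', fun y hy => ?_, hA'b, ?_, fun K hK h hh => ?_⟩,
    hΦ, fun s => ?_, hΦb, fun A hA => ?_, fun κ K h hK hh => ?_, fun κ ψ hψ hpos => ?_,
    fun A hA => ?_⟩, hlim, hlim1⟩
  · refine tendsto_nhds_unique (hlim y) ?_
    have : (fun T => Aa T y) = fun _ => 0 := funext fun T => Aa_neg T y hy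
    rw [this]
    exact tendsto_const_nhds
  · refine le_of_forall_pos_le_add fun ε hε => ?_
    have h1 : ∀ᶠ T in (g : Filter ℝ), 1 - ε ≤ Aa T 0 := hgt (Aa_diag hε)
    have := ge_of_tendsto (hlim 0) h1
    linarith
  · obtain ⟨D, hD⟩ := test_decay hK h
    refine lim_int hmono hb ?_ hD ?_ hgt hA' hlim
    · exact (hK.ct_cont.measurable.comp (by fun_prop)).sub
        (hK.ct_cont.measurable.comp (by fun_prop))
    · have h1 := (mont_lim RH (NTf_fav hK hκ0 hκ1 hh)).neg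
      rw [AG_mont hK hκ1 hh]
      refine h1.congr fun T => ?_
      rw [Aa_int hK hh]
      rw [div_eq_inv_mul]
  · refine tendsto_nhds_unique (hlim1 (-s)) ?_
    have : (fun T => Ph T (-s)) = fun T => -Ph T s := funext fun T => Ph_odd T s
    rw [this]
    exact (hlim1 s).neg
  · -- the average
    have h1 := havg A (by linarith)
    refine le_of_forall_pos_lt_add fun ε hε => ?_
    have hA0 : 0 < A := by linarith
    have h2 := ge_of_tendsto h1 (hgt (Ph_lower A (ε := ε / A ^ 2) (by positivity)))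
    have h3 : A ^ 2 / 2 * (1 - ε / A ^ 2) = A ^ 2 / 2 - ε / 2 := by field_simp
    rw [h3] at h2
    linarith
  · -- the link
    obtain ⟨D, hD⟩ := test_decay hK h
    have h1 := tendsto_int hmono hb (w := fun y => ct K (y + h) - ct K (y - h))
      ((hK.ct_cont.measurable.comp (by fun_prop)).sub
        (hK.ct_cont.measurable.comp (by fun_prop))) hD hgt hA' hlim
    have hψ := Kav_TK hK h
    have hs1 := TK.deriv_smooth hψ.smooth
    have hc1 : HasCompactSupport (deriv (Kav K h)) := hψ.hcs.deriv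
    obtain ⟨B, hB⟩ := hc1.exists_bound_of_continuous hs1.continuous
    obtain ⟨D1, hD1⟩ := cs_decay (w := deriv (Kav K h)) (R := κ) (B := B) (fun y => hB y)
      (TK.deriv_supp hψ.supp)
    have h2 := tendsto_int hmono1 hb1 hs1.continuous.measurable hD1 hgt hΦ hlim1
    have h3 := (link RH hK hh).mono_left hgt
    have h4 := tendsto_nhds_unique (h1.sub h2) h3
    linarith
  · -- positivity
    have hs1 := TK.deriv_smooth hψ.smooth
    have hc1 : HasCompactSupport (deriv ψ) := hψ.hcs.deriv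
    obtain ⟨B, hB⟩ := hc1.exists_bound_of_continuous hs1.continuous
    obtain ⟨D1, hD1⟩ := cs_decay (w := deriv ψ) (R := κ) (B := B) (fun y => hB y)
      (TK.deriv_supp hψ.supp)
    have h2 := (tendsto_int hmono1 hb1 hs1.continuous.measurable hD1 hgt hΦ hlim1).neg
    refine le_of_forall_pos_lt_add fun ε hε => ?_
    have hp : 0 < ct ψ 0 + 1 := by linarith [hpos 0]
    have h3 : ∀ᶠ T in (g : Filter ℝ), ct ψ 0 * (1 - ε / (2 * (ct ψ 0 + 1))) ≤
        -∫ α, Ph T α * deriv ψ α := by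
      filter_upwards [hgt (QW_lower hpos (ε := ε / (2 * (ct ψ 0 + 1))) (by positivity))] with T hT
      have h4 : ∫ α, Ph T α * deriv ψ α = ∫ α, deriv ψ α * Ph T α := by
        refine integral_congr_ae (Eventually.of_forall fun α => ?_)
        show Ph T α * deriv ψ α = _
        ring
      rw [h4, FT_parts hψ, neg_neg, FT_ct hψ]
      exact hT
    have h4 := ge_of_tendsto h2 h3
    have h5 : ct ψ 0 * (1 - ε / (2 * (ct ψ 0 + 1))) =
        ct ψ 0 - ε / 2 * (ct ψ 0 / (ct ψ 0 + 1)) := by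
      field_simp
    have h6 : ct ψ 0 / (ct ψ 0 + 1) ≤ 1 := by
      rw [div_le_one hp]
      linarith
    rw [h5] at h4
    have h7 := mul_le_mul_of_nonneg_left h6 (show 0 ≤ ε / 2 by positivity)
    linarith
  · -- the upper bound
    have hpi := Real.pi_gt_three
    have hb0 : 0 < (π * A)⁻¹ := by positivity
    have hb1' : (π * A)⁻¹ ≤ 1 := inv_le_one_of_one_le₀ (by nlinarith)
    have h1 := hIoc (π * A)⁻¹ 1 (fun y => 1 / (π ^ 2 * y ^ 3)) hb0.le hb1'
      (by fun_prop) ⟨1 / (π ^ 2 * ((π * A)⁻¹) ^ 3), fun y hy => by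
        have hy0 : 0 < y := hb0.trans hy.1
        rw [abs_of_pos (by positivity)]
        refine one_div_le_one_div_of_le (by positivity) ?_
        refine mul_le_mul_of_nonneg_left ?_ (by positivity)
        exact pow_le_pow_left₀ hb0.le hy.1.le 3⟩ hmono hb hA' hlim
    have h2 := havg A (by linarith)
    refine le_of_tendsto_of_tendsto h2 (h1.add_const C2) ?_
    filter_upwards [hgt (eventually_ge_atTop T2)] with T hT
    exact hup T hT A hA

end Pool.Agent.W2helper22.UB
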