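import Pool.Agent.W2helper22.UB.Uniq

/-! # Periodic gaps vanish, by positivity -/

set_option autoImplicit false

open MeasureTheory Filter Topology Real
open scoped ContDiff
open Pool.Agent.Y744

namespace Pool.Agent.W2helper22.UB

open Pool.Agent.W2helper22.PC

variable {κ : ℝ} {ψ ψ' : ℝ → ℝ}

/-- linear combinations of test functions -/
lemma TK_comb (h : TK κ ψ) (h' : TK κ ψ') (a b : ℝ) : TK κ (fun α => a * ψ α + b * ψ' α) where
  smooth := (contDiff_const.mul h.smooth).add (contDiff_const.mul h'.smooth)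
  even := fun x => by simp only [h.even, h'.even]
  supp := fun x hx => by simp only [h.supp x hx, h'.supp x hx, mul_zero, add_zero]

lemma ct_comb (h : TK κ ψ) (h' : TK κ ψ') (a b x : ℝ) :
    ct (fun α => a * ψ α + b * ψ' α) x = a * ct ψ x + b * ct ψ' x := by
  unfold ct
  rw [← integral_const_mul, ← integral_const_mul, ← integral_add
    ((h.mul_int (by fun_prop)).const_mul a) ((h'.mul_int (by fun_prop)).const_mul b)]
  refine integral_congr_ae (Eventually.of_forall fun α => ?_)
  show (a * ψ α + b * ψ' α) * _ = _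
  ring

lemma deriv_comb (h : TK κ ψ) (h' : TK κ ψ') (a b x : ℝ) :
    deriv (fun α => a * ψ α + b * ψ' α) x = a * deriv ψ x + b * deriv ψ' x := by
  have h1 : DifferentiableAt ℝ ψ x := (h.smooth.differentiable (by simp)) x
  have h2 : DifferentiableAt ℝ ψ' x := (h'.smooth.differentiable (by simp)) x
  exact ((h1.hasDerivAt.const_mul a).add (h2.hasDerivAt.const_mul b)).deriv

/-- symmetric translates -/
noncomputable def mod (ψ : ℝ → ℝ) (s α : ℝ) : ℝ := (ψ (α - s) + ψ (α + s)) / 2

lemma mod_TK (h : TK κ ψ) (s : ℝ) : TK (κ + |s|) (mod ψ s) := h.modul s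

lemma ct_mod (h : TK κ ψ) (s x : ℝ) : ct (mod ψ s) x = Real.cos (2 * π * s * x) * ct ψ x :=
  h.ct_modul s x

lemma deriv_mod (h : TK κ ψ) (s x : ℝ) :
    deriv (mod ψ s) x = (deriv ψ (x - s) + deriv ψ (x + s)) / 2 := by
  have h1 : ∀ y, HasDerivAt ψ (deriv ψ y) y := fun y =>
    ((h.smooth.differentiable (by simp)) y).hasDerivAt
  exact (((h1 (x - s)).comp_sub_const x s).add ((h1 (x + s)).comp_add_const x s)).div_const 2
    |>.deriv

lemma deriv_odd (h : TK κ ψ) (x : ℝ) : deriv ψ (-x) = -deriv ψ x := by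
  have h1 : (fun x => ψ (-x)) = ψ := funext h.even
  have h3 := deriv_comp_neg ψ x
  rw [h1] at h3
  rw [h3, neg_neg]

/-- what is used about the difference between the primitive and the prediction -/
structure Gap (G : ℝ → ℝ) (C : ℝ) : Prop where
  odd : ∀ s, G (-s) = -G s
  meas : Measurable G
  bd : ∀ s, |G s| ≤ C * (1 + s ^ 2)
  small : ∀ x, |x| < 1 → G x = 0
  pos : ∀ κ ψ, TK κ ψ → (∀ x, 0 ≤ ct ψ x) → ∫ α, G α * deriv ψ α ≤ ∫ y, ct ψ y * gd y

variable {G : ℝ → ℝ} {C : ℝ}

lemma Gap.C_nonneg (hG : Gap G C) : 0 ≤ C := by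
  have := (abs_nonneg _).trans (hG.bd 0)
  simpa using this

lemma Gap.shift_int (hG : Gap G C) (hψ : TK κ ψ) (s : ℝ) :
    Integrable fun α => G (α + s) * deriv ψ α := by
  refine int_test (C := C * (2 * (1 + s ^ 2))) (hG.meas.comp (by fun_prop)) (fun x => ?_) hψ
  refine (hG.bd _).trans ?_
  rw [mul_assoc]
  refine mul_le_mul_of_nonneg_left ?_ hG.C_nonneg
  nlinarith [sq_nonneg (x - s), sq_nonneg (x * s), sq_nonneg x, sq_nonneg s]

lemma Gap.shift_int' (hG : Gap G C) (hψ : TK κ ψ) (s : ℝ) :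
    Integrable fun α => G α * deriv ψ (α - s) := by
  have := (hG.shift_int hψ s).comp_sub_right s
  refine this.congr (Eventually.of_forall fun x => ?_)
  show G (x - s + s) * deriv ψ (x - s) = G x * deriv ψ (x - s)
  rw [sub_add_cancel]

lemma shift_eq (G ψ : ℝ → ℝ) (s : ℝ) :
    ∫ α, G α * ψ (α - s) = ∫ α, G (α + s) * ψ α := by
  have h := integral_add_right_eq_self (μ := volume) (fun α => G α * ψ (α - s)) s
  rw [← h]
  refine integral_congr_ae (Eventually.of_forall fun α => ?_)
  show G (α + s) * ψ (α + s - s) = G (α + s) * ψ α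
  rw [add_sub_cancel_right]

/-- the functional at a symmetric translate -/
lemma Gap.mod_eq (hG : Gap G C) (hψ : TK κ ψ) (s : ℝ) :
    ∫ α, G α * deriv (mod ψ s) α = ∫ α, G α * deriv ψ (α - s) := by
  have i1 := hG.shift_int' hψ s
  have i2 : Integrable fun α => G α * deriv ψ (α + s) := by
    have := hG.shift_int' hψ (-s)
    simpa only [sub_neg_eq_add] using this
  have e1 : ∫ α, G α * deriv ψ (α + s) = ∫ α, G α * deriv ψ (α - s) := by
    rw [← integral_neg_eq_self (fun α => G α * deriv ψ (α + s)) volume]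
    refine integral_congr_ae (Eventually.of_forall fun α => ?_)
    show G (-α) * deriv ψ (-α + s) = G α * deriv ψ (α - s)
    rw [show -α + s = -(α - s) by ring, deriv_odd hψ, hG.odd]
    ring
  have e2 : ∫ α, G α * deriv (mod ψ s) α =
      ((∫ α, G α * deriv ψ (α - s)) + ∫ α, G α * deriv ψ (α + s)) / 2 := by
    rw [← integral_add i1 i2, ← integral_div]
    refine integral_congr_ae (Eventually.of_forall fun α => ?_)
    show G α * deriv (mod ψ s) α = (G α * deriv ψ (α - s) + G α * deriv ψ (α + s)) / 2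
    rw [deriv_mod hψ]
    ring
  rw [e2, e1]
  ring

/-- linearity of the functional -/
lemma Gap.comb (hG : Gap G C) (hψ : TK κ ψ) (hψ' : TK κ ψ') (a b : ℝ) :
    ∫ α, G α * deriv (fun α => a * ψ α + b * ψ' α) α =
      a * (∫ α, G α * deriv ψ α) + b * ∫ α, G α * deriv ψ' α := by
  rw [← integral_const_mul, ← integral_const_mul, ← integral_add
    ((int_test hG.meas hG.bd hψ).const_mul a) ((int_test hG.meas hG.bd hψ').const_mul b)]
  refine integral_congr_ae (Eventually.of_forall fun α => ?_)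
  show G α * deriv (fun α => a * ψ α + b * ψ' α) α = a * (G α * deriv ψ α) + b * (G α * deriv ψ' α)
  rw [deriv_comb hψ hψ']
  ring

/-- averaging over a period -/
lemma Gap.iter (hG : Gap G C) {ℓ : ℝ} (hper : ∀ᵐ a, G (a + ℓ) = G a) (hψ : TK κ ψ) (n : ℕ) :
    ∃ κ' ψ', TK κ' ψ' ∧ (∀ x, ct ψ' x = ct ψ x * ((1 + Real.cos (2 * π * ℓ * x)) / 2) ^ n) ∧
      ∫ α, G α * deriv ψ' α = ∫ α, G α * deriv ψ α := by
  induction n with
  | zero => exact ⟨κ, ψ, hψ, fun x => by rw [pow_zero, mul_one], rfl⟩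
  | succ n ih =>
    obtain ⟨κ1, ψ1, h1, h2, h3⟩ := ih
    have h4 : TK (κ1 + |ℓ|) ψ1 := h1.mono (by linarith [abs_nonneg ℓ])
    have h5 := mod_TK h1 ℓ
    refine ⟨_, _, TK_comb h4 h5 (1 / 2) (1 / 2), fun x => ?_, ?_⟩
    · rw [ct_comb h4 h5, ct_mod h1, h2, pow_succ]
      ring
    · rw [hG.comb h4 h5, hG.mod_eq h1, shift_eq]
      have e : ∫ α, G (α + ℓ) * deriv ψ1 α = ∫ α, G α * deriv ψ1 α := by
        refine integral_congr_ae ?_
        filter_upwards [hper] with a ha
        rw [ha]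
      rw [e, h3]
      ring

/-- **positivity for periodic gaps** -/
lemma Gap.nonpos (hG : Gap G C) {ℓ : ℝ} (hℓ : 0 < ℓ) (hper : ∀ᵐ a, G (a + ℓ) = G a)
    (hψ : TK κ ψ) (hpos : ∀ x, 0 ≤ ct ψ x) : ∫ α, G α * deriv ψ α ≤ 0 := by
  have hpi := Real.pi_pos
  set c : ℝ → ℝ := fun x => (1 + Real.cos (2 * π * ℓ * x)) / 2 with hc
  have hc0 : ∀ x, 0 ≤ c x := fun x => by
    have := Real.neg_one_le_cos (2 * π * ℓ * x)
    show 0 ≤ (1 + Real.cos (2 * π * ℓ * x)) / 2
    linarith
  have hc1 : ∀ x, c x ≤ 1 := fun x => by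
    have := Real.cos_le_one (2 * π * ℓ * x)
    show (1 + Real.cos (2 * π * ℓ * x)) / 2 ≤ 1
    linarith
  have hcc : Continuous c := by
    show Continuous fun x => (1 + Real.cos (2 * π * ℓ * x)) / 2
    fun_prop
  have hle : ∀ n : ℕ, ∫ α, G α * deriv ψ α ≤ ∫ y, ct ψ y * c y ^ n * gd y := by
    intro n
    obtain ⟨κ', ψ', h1, h2, h3⟩ := hG.iter hper hψ n
    rw [← h3]
    refine (hG.pos κ' ψ' h1 fun x => ?_).trans (le_of_eq ?_)
    · rw [h2]
      exact mul_nonneg (hpos x) (pow_nonneg (hc0 x) n)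
    · refine integral_congr_ae (Eventually.of_forall fun x => ?_)
      show ct ψ' x * gd x = ct ψ x * c x ^ n * gd x
      rw [h2]
  have hae : ∀ᵐ x : ℝ, c x < 1 := by
    have hcount : ({x : ℝ | ¬ c x < 1}).Countable := by
      have h1 : {x : ℝ | ¬ c x < 1} ⊆ Set.range fun k : ℤ => (k : ℝ) / ℓ := by
        intro x hx
        have h2 : ¬ c x < 1 := hx
        have h3 : Real.cos (2 * π * ℓ * x) = 1 := by
          refine le_antisymm (Real.cos_le_one _) ?_
          by_contra hcon
          push Not at hcon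
          refine h2 ?_
          show (1 + Real.cos (2 * π * ℓ * x)) / 2 < 1
          linarith
        rw [Real.cos_eq_one_iff] at h3
        obtain ⟨k, hk⟩ := h3
        refine ⟨k, ?_⟩
        show (k : ℝ) / ℓ = x
        rw [div_eq_iff hℓ.ne']
        have h4 : (k : ℝ) * (2 * π) = (x * ℓ) * (2 * π) := by rw [hk]; ring
        exact mul_right_cancel₀ (by positivity) h4
      exact (Set.countable_range _).mono h1
    have := hcount.ae_notMem volume
    exact this.mono fun x hx => by
      by_contra hcon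
      exact hx hcon
  have hlim : Tendsto (fun n : ℕ => ∫ y, ct ψ y * c y ^ n * gd y) atTop (𝓝 (∫ _y : ℝ, (0 : ℝ))) := by
    refine tendsto_integral_of_dominated_convergence _ (fun n => ?_) (ct_integrable hψ).norm
      (fun n => ?_) ?_
    · exact ((hψ.ct_cont.mul (hcc.pow n)).mul gd_cont).aestronglyMeasurable
    · refine Eventually.of_forall fun x => ?_
      rw [norm_mul, norm_mul, norm_pow]
      have h1 : ‖c x‖ ^ n ≤ 1 := by
        refine pow_le_one₀ (norm_nonneg _) ?_
        rw [Real.norm_eq_abs, abs_of_nonneg (hc0 x)]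
        exact hc1 x
      have h2 : ‖gd x‖ ≤ 1 := by
        rw [Real.norm_eq_abs, abs_of_nonneg (gd_nonneg x)]
        exact gd_le x
      calc ‖ct ψ x‖ * ‖c x‖ ^ n * ‖gd x‖ ≤ ‖ct ψ x‖ * 1 * 1 := by gcongr
        _ = ‖ct ψ x‖ := by ring
    · filter_upwards [hae] with x hx
      have h1 := (tendsto_pow_atTop_nhds_zero_of_lt_one (hc0 x) hx).const_mul (ct ψ x)
      have h2 := h1.mul_const (gd x)
      rw [mul_zero, zero_mul] at h2
      exact h2
  rw [integral_zero] at hlim
  exact ge_of_tendsto hlim (Eventually.of_forall hle)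

/-- the functional vanishes near `0` -/
lemma Gap.zero (hG : Gap G C) (hψ : TK κ ψ) (hκ : κ < 1) : ∫ α, G α * deriv ψ α = 0 := by
  have : ∀ α, G α * deriv ψ α = 0 := by
    intro α
    rcases lt_or_ge |α| 1 with h | h
    · rw [hG.small α h, zero_mul]
    · rw [TK.deriv_supp hψ.supp α (by linarith), mul_zero]
  simp [this]

/-- domination of the local masses by the mass near `0` -/
lemma Gap.mod_zero (hG : Gap G C) {ℓ : ℝ} (hℓ : 0 < ℓ) (hper : ∀ᵐ a, G (a + ℓ) = G a)
    (hψ : TK κ ψ) (hκ : κ < 1) (hpos : ∀ x, 0 ≤ ct ψ x) (s : ℝ) :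
    ∫ α, G α * deriv ψ (α - s) = 0 := by
  rw [← hG.mod_eq hψ]
  have h4 : TK (κ + |s|) ψ := hψ.mono (by linarith [abs_nonneg s])
  have h5 := mod_TK hψ s
  have key : ∀ b : ℝ, |b| ≤ 1 → b * ∫ α, G α * deriv (mod ψ s) α ≤ 0 := by
    intro b hb
    have h1 := hG.nonpos hℓ hper (TK_comb h4 h5 1 b) (fun x => by
      rw [ct_comb h4 h5, ct_mod hψ]
      have h2 : |b * Real.cos (2 * π * s * x)| ≤ 1 := by
        rw [abs_mul]
        exact mul_le_one₀ hb (abs_nonneg _) (Real.abs_cos_le_one _)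
      have h3 := (abs_le.1 h2).1
      have h6 := mul_nonneg (show 0 ≤ 1 + b * Real.cos (2 * π * s * x) by linarith) (hpos x)
      linarith)
    rw [hG.comb h4 h5, hG.zero hψ hκ] at h1
    linarith
  have h1 := key 1 (by norm_num)
  have h2 := key (-1) (by norm_num)
  linarith

/-- the convolutions vanish -/
lemma Gap.conv_zero (hG : Gap G C) {ℓ : ℝ} (hℓ : 0 < ℓ) (hper : ∀ᵐ a, G (a + ℓ) = G a)
    (hψ : TK κ ψ) (hκ : κ < 1) (hpos : ∀ x, 0 ≤ ct ψ x) (s : ℝ) :
    ∫ α, G (α + s) * ψ α = 0 := by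
  have hloc : LocallyIntegrable G := by
    have hc : LocallyIntegrable (fun s : ℝ => C * (1 + s ^ 2)) :=
      (by fun_prop : Continuous fun s : ℝ => C * (1 + s ^ 2)).locallyIntegrable
    refine hc.mono hG.meas.aestronglyMeasurable (Eventually.of_forall fun x => ?_)
    rw [Real.norm_eq_abs, Real.norm_eq_abs]
    exact (hG.bd x).trans (le_abs_self _)
  set W : ℝ → ℝ := convolution G ψ (ContinuousLinearMap.mul ℝ ℝ) volume with hW
  have hW1 : ∀ s, W s = ∫ α, G (α + s) * ψ α := by
    intro s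
    rw [← shift_eq]
    show ∫ t, G t * ψ (s - t) = ∫ α, G α * ψ (α - s)
    refine integral_congr_ae (Eventually.of_forall fun α => ?_)
    show G α * ψ (s - α) = G α * ψ (α - s)
    rw [← hψ.even, neg_sub]
  have hd : ∀ s, HasDerivAt W 0 s := by
    intro s
    have h1 := hψ.hcs.hasDerivAt_convolution_right (ContinuousLinearMap.mul ℝ ℝ) (f₀ := G)
      (μ := volume) hloc (hψ.smooth.of_le (by simp)) s
    refine h1.congr_deriv ?_
    show ∫ t, G t * deriv ψ (s - t) = 0
    have h2 := hG.mod_zero hℓ hper hψ hκ hpos s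
    rw [← neg_eq_zero, ← integral_neg, ← h2]
    refine integral_congr_ae (Eventually.of_forall fun α => ?_)
    show -(G α * deriv ψ (s - α)) = G α * deriv ψ (α - s)
    rw [show s - α = -(α - s) by ring, deriv_odd hψ]
    ring
  have hconst : ∀ s, W s = W 0 := fun s =>
    is_const_of_deriv_eq_zero (fun x => (hd x).differentiableAt) (fun x => (hd x).deriv) s 0
  have h0 : W 0 = 0 := by
    rw [hW1]
    simp only [add_zero]
    have h1 : ∫ α, G α * ψ α = -∫ α, G α * ψ α := by
      conv_lhs => rw [← integral_neg_eq_self (fun α => G α * ψ α) volume]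
      rw [← integral_neg]
      refine integral_congr_ae (Eventually.of_forall fun α => ?_)
      show G (-α) * ψ (-α) = -(G α * ψ α)
      rw [hG.odd, hψ.even]
      ring
    linarith
  rw [← hW1, hconst, h0]

/-- **a periodic gap vanishes at the points of continuity** -/
theorem Gap.rigid (hG : Gap G C) {ℓ : ℝ} (hℓ : 0 < ℓ) (hper : ∀ᵐ a, G (a + ℓ) = G a) {t : ℝ}
    (ht : ContinuousAt G t) : G t = 0 := by
  obtain ⟨χ, hχ, hpos, hχ0, _⟩ := exists_pos (show (0 : ℝ) < 1 / 2 by norm_num)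
  obtain ⟨B, hB⟩ := hχ.hcs.exists_bound_of_continuous hχ.cont
  obtain ⟨D, hD⟩ := cs_decay (w := χ) (R := 1 / 2) (B := B) (fun y => hB y) hχ.supp
  refine approx_gen hG.meas hG.bd hχ.cont.measurable hD ?_ (fun n => ?_) ht
  · have h1 : ct χ 0 = ∫ α, χ α := by
      unfold ct
      refine integral_congr_ae (Filter.Eventually.of_forall fun x => ?_)
      show χ x * Real.cos (2 * π * 0 * x) = χ x
      rw [mul_zero, zero_mul, Real.cos_zero, mul_one]
    rw [← h1]
    exact hχ0.ne'
  · have hn : (0 : ℝ) < n + 1 := by positivity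
    have hn1 : (1 : ℝ) ≤ n + 1 := by
      have : (0 : ℝ) ≤ n := Nat.cast_nonneg n
      linarith
    set ε : ℝ := ((n : ℝ) + 1)⁻¹ with hε
    have hε0 : 0 < ε := inv_pos.2 hn
    have hε1 : ε ≤ 1 := inv_le_one_of_one_le₀ hn1
    have h1 := hχ.dil hε0
    have h2 := hG.conv_zero hℓ hper h1 (by nlinarith) (fun x => by
      rw [TK.ct_dil χ hε0]
      exact hpos _) t
    rw [hε, inv_inv] at h2
    have h3 := Measure.integral_comp_mul_left (fun u => G (u / (n + 1) + t) * χ u) ((n : ℝ) + 1)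
    have h4 : ∀ y : ℝ, ((n : ℝ) + 1) * y / (n + 1) = y := fun y => by field_simp
    simp only [h4] at h3
    have h5 : ∫ y, G (y + t) * χ (((n : ℝ) + 1) * y) = 0 := by
      have h6 : ∫ α, G (α + t) * (((n : ℝ) + 1) * χ (((n : ℝ) + 1) * α)) =
          ((n : ℝ) + 1) * ∫ y, G (y + t) * χ (((n : ℝ) + 1) * y) := by
        rw [← integral_const_mul]
        refine integral_congr_ae (Eventually.of_forall fun α => ?_)
        show G (α + t) * (((n : ℝ) + 1) * χ (((n : ℝ) + 1) * α)) = _
        ring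
      rw [h6] at h2
      exact (mul_eq_zero.1 h2).resolve_left hn.ne'
    rw [h5, smul_eq_mul] at h3
    have h6 : |((n : ℝ) + 1)⁻¹| ≠ 0 := by positivity
    exact (mul_eq_zero.1 h3.symm).resolve_left h6

variable {A' Φ : ℝ → ℝ} {C0 C1 C2 : ℝ}

/-- the gap of a pair of limits -/
lemma Pair.gap (h : Pair A' Φ C0 C1 C2) : Gap (fun s => Φ s - Pg s) (C1 + 1) where
  odd := fun s => by
    show Φ (-s) - Pg (-s) = -(Φ s - Pg s)
    rw [h.odd, Pg_odd]
    ring
  meas := h.mono.measurable.sub Pg_mono.measurable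
  bd := fun s => by
    have := h.bd s
    have := Pg_bound s
    refine (abs_sub _ _).trans ?_
    linarith
  small := fun x hx => by
    obtain ⟨h1, h2⟩ := abs_lt.1 hx
    show Φ x - Pg x = 0
    rcases lt_trichotomy x 0 with hx0 | rfl | hx0
    · have h3 := h.small (-x) (by linarith) (by linarith)
      rw [h.odd, Pg_odd] at h3
      linarith
    · have h3 := h.odd 0
      rw [neg_zero] at h3
      rw [Pg_zero]
      linarith
    · have h3 := h.small x hx0 h2
      linarith
  pos := fun κ ψ hψ hpos => by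
    have h1 := h.pos κ ψ hψ hpos
    have h2 := Pg_parts hψ
    rw [← gue_id hψ] at h2
    have h3 : ∫ α, (Φ α - Pg α) * deriv ψ α = (∫ α, Φ α * deriv ψ α) -
        ∫ α, Pg α * deriv ψ α := by
      rw [← integral_sub (int_test h.mono.measurable h.bd hψ)
        (int_test Pg_mono.measurable Pg_bound hψ)]
      refine integral_congr_ae (Eventually.of_forall fun x => ?_)
      show (Φ x - Pg x) * deriv ψ x = Φ x * deriv ψ x - Pg x * deriv ψ x
      ring
    rw [h3, h2]
    linarith

lemma Pair.gap_int (h : Pair A' Φ C0 C1 C2) (a b : ℝ) :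
    IntervalIntegrable (fun s => Φ s - Pg s) volume a b :=
  h.mono.intervalIntegrable.sub (Pg_int a b)

/-- **rigidity for the limits** -/
theorem Pair.rigid (h : Pair A' Φ C0 C1 C2) {ℓ : ℝ} (hℓ : 0 < ℓ)
    (hper : ∀ᵐ a, Φ (a + ℓ) - Pg (a + ℓ) = Φ a - Pg a) : ∀ x, 0 < x → Φ x = Pg x := by
  have hc : ∀ᵐ x, ContinuousAt (fun s => Φ s - Pg s) x := by
    have h1 := h.mono.countable_not_continuousAt
    have h2 := Pg_mono.countable_not_continuousAt
    have h3 : ∀ᵐ x, ContinuousAt Φ x := h1.ae_notMem volume |>.mono fun x hx => by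
      by_contra hc
      exact hx hc
    have h4 : ∀ᵐ x, ContinuousAt Pg x := h2.ae_notMem volume |>.mono fun x hx => by
      by_contra hc
      exact hx hc
    filter_upwards [h3, h4] with x h5 h6
    exact h5.sub h6
  intro x hx
  refine eq_of_ae h.mono (c := x + 1) ?_ x hx (by linarith)
  filter_upwards [hc] with y hy _
  have := h.gap.rigid hℓ hper hy
  linarith

/-- **upper bounds** for the limit -/
theorem Pair.of_upper (h : Pair A' Φ C0 C1 C2) {ℓ : ℝ} (hℓ : 0 < ℓ)
    (hu : ∀ᵐ a, Φ (a + ℓ) - Φ a ≤ Pg (a + ℓ) - Pg a) : ∀ x, 0 < x → Φ x = Pg x := by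
  refine h.rigid hℓ (periodic h.gap.odd h.gap_int hℓ (hu.mono fun a ha => ?_) fun c hc A0 => ?_)
  · linarith
  · refine ⟨max A0 (max 1 (1 / c)), le_max_left _ _, ?_⟩
    set A := max A0 (max 1 (1 / c)) with hA
    have h1 : 1 ≤ A := (le_max_left _ _).trans (le_max_right _ _)
    have h2 : 1 / c ≤ A := (le_max_right _ _).trans (le_max_right _ _)
    have h3 := h.avg A h1
    have h4 := Pg_avg h1
    have h5 : ∫ s in (0 : ℝ)..A, (Φ s - Pg s) = (∫ s in (0 : ℝ)..A, Φ s) -
        ∫ s in (0 : ℝ)..A, Pg s :=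
      intervalIntegral.integral_sub h.mono.intervalIntegrable (Pg_int _ _)
    rw [h5]
    rw [div_le_iff₀ hc] at h2
    linarith

/-- the integrals of the kernel -/
lemma rho_int {b m : ℝ} (hb : 0 < b) (hbm : b ≤ m) {E B : ℝ} :
    ∫ y in b..m, (E + B * y) * (1 / (π ^ 2 * y ^ 3)) =
      E / (2 * π ^ 2) * (1 / b ^ 2 - 1 / m ^ 2) + B / π ^ 2 * (1 / b - 1 / m) := by
  have hpi := Real.pi_pos
  have hd : ∀ y ∈ Set.uIcc b m, HasDerivAt
      (fun y : ℝ => -(E / (2 * π ^ 2)) * (y ^ 2)⁻¹ - (B / π ^ 2) * y⁻¹)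
      ((E + B * y) * (1 / (π ^ 2 * y ^ 3))) y := by
    intro y hy
    rw [Set.uIcc_of_le hbm] at hy
    have hy0 : 0 < y := hb.trans_le hy.1
    have h1 : HasDerivAt (fun y : ℝ => (y ^ 2)⁻¹) (-(2 * y) / (y ^ 2) ^ 2) y := by
      have := (hasDerivAt_pow 2 y).fun_inv (by positivity)
      simpa using this
    have h2 : HasDerivAt (fun y : ℝ => y⁻¹) (-(y ^ 2)⁻¹) y := hasDerivAt_inv hy0.ne'
    refine ((h1.const_mul (-(E / (2 * π ^ 2)))).sub (h2.const_mul (B / π ^ 2))).congr_deriv ?_
    field_simp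
    ring
  have hm : 0 < m := hb.trans_le hbm
  rw [intervalIntegral.integral_eq_sub_of_hasDerivAt hd]
  · field_simp
    ring
  · refine ContinuousOn.intervalIntegrable ?_
    rw [Set.uIcc_of_le hbm]
    refine ContinuousOn.mul (by fun_prop) (continuousOn_const.div (by fun_prop) fun y hy => ?_)
    have : 0 < y := hb.trans_le hy.1
    positivity

/-- **lower bounds** for the limit, under weak repulsion -/
theorem Pair.of_lower (h : Pair A' Φ C0 C1 C2) {ℓ : ℝ} (hℓ : 0 < ℓ)
    (hu : ∀ᵐ a, Pg (a + ℓ) - Pg a ≤ Φ (a + ℓ) - Φ a)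
    (hw : ∀ ε, 0 < ε → ∃ y1, 0 < y1 ∧ ∀ y, 0 < y → y < y1 → A' y ≤ 1 + ε * y) :
    ∀ x, 0 < x → Φ x = Pg x := by
  have hpi := Real.pi_gt_three
  have hpi0 := Real.pi_pos
  have hl := h.lim (1 / 2) (by norm_num) (by norm_num)
  have hper := periodic (G := fun s => -(Φ s - Pg s)) (fun s => by
    show -(Φ (-s) - Pg (-s)) = - -(Φ s - Pg s)
    have := h.gap.odd s
    have h2 : Φ (-s) - Pg (-s) = -(Φ s - Pg s) := this
    rw [h2]) (fun a b => (h.gap_int a b).neg) hℓ (hu.mono fun a ha => by linarith)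
    fun c hc A0 => by
      obtain ⟨y1, hy1, hy⟩ := hw c hc
      set y2 := min y1 1 / 2 with hy2
      have hy20 : 0 < y2 := by
        have : 0 < min y1 1 := lt_min hy1 one_pos
        positivity
      have hy21 : y2 < y1 := by
        have h3 := min_le_left y1 1
        have : 0 < min y1 1 := lt_min hy1 one_pos
        linarith
      have hy22 : y2 < 1 := by
        have h3 := min_le_right y1 1
        have : 0 < min y1 1 := lt_min hy1 one_pos
        linarith
      set E := A' 1 * (1 / (2 * π ^ 2) * (1 / y2 ^ 2 - 1 / 1 ^ 2)) + C2 with hE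
      set A := max A0 (max (max 1 (1 / y2)) ((|E| + 1) * 2 / c)) with hA
      have hA1 : 1 ≤ A := ((le_max_left _ _).trans (le_max_left _ _)).trans (le_max_right _ _)
      have hA2 : 1 / y2 ≤ A := ((le_max_right _ _).trans (le_max_left _ _)).trans
        (le_max_right _ _)
      have hA3 : (|E| + 1) * 2 / c ≤ A := (le_max_right _ _).trans (le_max_right _ _)
      refine ⟨A, le_max_left _ _, ?_⟩
      have h3 := h.up A hA1
      have h4 := Pg_avg' hA1
      have h5 : ∫ s in (0 : ℝ)..A, -(Φ s - Pg s) = -((∫ s in (0 : ℝ)..A, Φ s) -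
          ∫ s in (0 : ℝ)..A, Pg s) := by
        rw [intervalIntegral.integral_neg]
        congr 1
        exact intervalIntegral.integral_sub h.mono.intervalIntegrable (Pg_int _ _)
      rw [h5]
      set b := (π * A)⁻¹ with hb
      have hb0 : 0 < b := by positivity
      have hby : b ≤ y2 := by
        rw [hb, inv_le_comm₀ (by positivity) hy20, ← one_div]
        have : A ≤ π * A := by nlinarith
        linarith
      have hint : ∀ m n : ℝ, 0 < m → m ≤ n →
          IntervalIntegrable (fun y => A' y * (1 / (π ^ 2 * y ^ 3))) volume m n := by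
        intro m n hm hmn
        refine hl.mono.intervalIntegrable.mul_continuousOn ?_
        rw [Set.uIcc_of_le hmn]
        refine continuousOn_const.div (by fun_prop) fun y hy => ?_
        have : 0 < y := hm.trans_le hy.1
        positivity
      have hint2 : ∀ (m n E B : ℝ), 0 < m → m ≤ n →
          IntervalIntegrable (fun y => (E + B * y) * (1 / (π ^ 2 * y ^ 3))) volume m n := by
        intro m n E B hm hmn
        refine ContinuousOn.intervalIntegrable ?_
        rw [Set.uIcc_of_le hmn]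
        refine ContinuousOn.mul (by fun_prop) (continuousOn_const.div (by fun_prop) fun y hy => ?_)
        have : 0 < y := hm.trans_le hy.1
        positivity
      have h6 : ∫ y in b..1, A' y * (1 / (π ^ 2 * y ^ 3)) =
          (∫ y in b..y2, A' y * (1 / (π ^ 2 * y ^ 3))) +
            ∫ y in y2..1, A' y * (1 / (π ^ 2 * y ^ 3)) :=
        (intervalIntegral.integral_add_adjacent_intervals (hint b y2 hb0 hby)
          (hint y2 1 hy20 hy22.le)).symm
      have h7 : ∫ y in b..y2, A' y * (1 / (π ^ 2 * y ^ 3)) ≤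
          ∫ y in b..y2, (1 + c * y) * (1 / (π ^ 2 * y ^ 3)) := by
        refine intervalIntegral.integral_mono_on hby (hint b y2 hb0 hby)
          (hint2 b y2 1 c hb0 hby) fun y hyy => ?_
        have hy0 : 0 < y := hb0.trans_le hyy.1
        exact mul_le_mul_of_nonneg_right (hy y hy0 (by linarith [hyy.2])) (by positivity)
      have h8 : ∫ y in y2..1, A' y * (1 / (π ^ 2 * y ^ 3)) ≤
          ∫ y in y2..1, (A' 1 + 0 * y) * (1 / (π ^ 2 * y ^ 3)) := by
        refine intervalIntegral.integral_mono_on hy22.le (hint y2 1 hy20 hy22.le)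
          (hint2 y2 1 (A' 1) 0 hy20 hy22.le) fun y hyy => ?_
        have hy0 : 0 < y := hy20.trans_le hyy.1
        rw [zero_mul, add_zero]
        exact mul_le_mul_of_nonneg_right (hl.mono hyy.2) (by positivity)
      rw [rho_int hb0 hby] at h7
      rw [rho_int hy20 hy22.le] at h8
      have e1 : 1 / (2 * π ^ 2) * (1 / b ^ 2 - 1 / y2 ^ 2) ≤ A ^ 2 / 2 := by
        have e2 : 1 / (2 * π ^ 2) * (1 / b ^ 2) = A ^ 2 / 2 := by
          rw [hb]
          field_simp
        have e3 : 0 ≤ 1 / (2 * π ^ 2) * (1 / y2 ^ 2) := by positivity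
        rw [mul_sub]
        linarith
      have e4 : c / π ^ 2 * (1 / b - 1 / y2) ≤ c / 2 * A := by
        have e5 : c / π ^ 2 * (1 / b) = c / π * A := by
          rw [hb]
          field_simp
        have e6 : 0 ≤ c / π ^ 2 * (1 / y2) := by positivity
        have e7 : c / π * A ≤ c / 2 * A := by
          refine mul_le_mul_of_nonneg_right ?_ (by linarith)
          exact div_le_div_of_nonneg_left hc.le (by norm_num) (by linarith)
        rw [mul_sub]
        linarith
      have e8 : A' 1 / (2 * π ^ 2) * (1 / y2 ^ 2 - 1 / 1 ^ 2) + 0 / π ^ 2 * (1 / y2 - 1 / 1) + C2 =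
          E := by
        rw [hE]
        ring
      have e9 : E < c / 2 * A := by
        rw [div_le_iff₀ hc] at hA3
        have := le_abs_self E
        linarith
      linarith
  refine h.rigid hℓ (hper.mono fun a ha => ?_)
  have : -(Φ (a + ℓ) - Pg (a + ℓ)) = -(Φ a - Pg a) := ha
  linarith

end Pool.Agent.W2helper22.UB
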