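import Pool.Agent.W2helper22.UB.Lim2

/-! # The two limits determine each other -/

set_option autoImplicit false

open MeasureTheory Filter Topology Real
open scoped ContDiff
open Pool.Agent.Y744

namespace Pool.Agent.W2helper22.UB

open Pool.Agent.W2helper22.PC

/-- odd functions that annihilate the derivatives of the test functions -/
lemma ae_zero {G : ℝ → ℝ} (hodd : ∀ s, G (-s) = -G s) (hm : Measurable G) {C : ℝ}
    (hb : ∀ s, |G s| ≤ C * (1 + s ^ 2)) {κ : ℝ}
    (h : ∀ ψ, TK κ ψ → ∫ α, G α * deriv ψ α = 0) : ∀ᵐ x, x ∈ Set.Ioo 0 κ → G x = 0 := by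
  have hloc : LocallyIntegrable G := by
    have hc : LocallyIntegrable (fun s : ℝ => C * (1 + s ^ 2)) :=
      (by fun_prop : Continuous fun s : ℝ => C * (1 + s ^ 2)).locallyIntegrable
    refine hc.mono hm.aestronglyMeasurable (Eventually.of_forall fun x => ?_)
    rw [Real.norm_eq_abs, Real.norm_eq_abs]
    exact (hb x).trans (le_abs_self _)
  refine isOpen_Ioo.ae_eq_zero_of_integral_contDiff_smul_eq_zero (hloc.locallyIntegrableOn _) ?_
  intro θ hθ hθc hθs
  have hθ0 : ∀ x, x ≤ 0 → θ x = 0 := by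
    intro x hx
    by_contra hne
    have := hθs (subset_tsupport θ hne)
    linarith [this.1]
  have hθκ : ∀ x, κ ≤ x → θ x = 0 := by
    intro x hx
    by_contra hne
    have := hθs (subset_tsupport θ hne)
    linarith [this.2]
  have hc := hθ.continuous
  set Θ : ℝ → ℝ := fun x => ∫ u in (0 : ℝ)..x, θ u with hΘ
  have hΘd : ∀ x, HasDerivAt Θ (θ x) x := fun x =>
    intervalIntegral.integral_hasDerivAt_right (hc.intervalIntegrable _ _)
      (hc.stronglyMeasurableAtFilter _ _) hc.continuousAt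
  have hΘs : ContDiff ℝ ∞ Θ := by
    rw [contDiff_infty_iff_deriv]
    refine ⟨fun x => (hΘd x).differentiableAt, ?_⟩
    have : deriv Θ = θ := funext fun x => (hΘd x).deriv
    rw [this]
    exact hθ
  have hΘ0 : ∀ x, x ≤ 0 → Θ x = 0 := by
    intro x hx
    have : ∫ u in (0 : ℝ)..x, θ u = ∫ u in (0 : ℝ)..x, (0 : ℝ) := by
      refine intervalIntegral.integral_congr fun u hu => ?_
      rw [Set.uIcc_of_ge hx] at hu
      exact hθ0 u hu.2
    show ∫ u in (0 : ℝ)..x, θ u = 0
    rw [this]
    simp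
  have hΘκ : ∀ x, κ ≤ x → Θ x = Θ κ := by
    intro x hx
    have h1 : Θ x - Θ κ = ∫ u in κ..x, θ u :=
      intervalIntegral.integral_interval_sub_left (hc.intervalIntegrable _ _)
        (hc.intervalIntegrable _ _)
    have : ∫ u in κ..x, θ u = ∫ u in κ..x, (0 : ℝ) := by
      refine intervalIntegral.integral_congr fun u hu => ?_
      rw [Set.uIcc_of_le hx] at hu
      exact hθκ u hu.1
    rw [this] at h1
    simp at h1
    linarith
  set ψ : ℝ → ℝ := fun x => Θ x + Θ (-x) - Θ κ with hψ
  have hΘ0' := hΘ0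
  by_cases hκ : κ ≤ 0
  · have : ∀ x, θ x = 0 := fun x => by
      rcases le_total x 0 with hx | hx
      · exact hθ0 x hx
      · exact hθκ x (hκ.trans hx)
    simp [this]
  push Not at hκ
  have hT : TK κ ψ := by
    refine ⟨?_, fun x => ?_, fun x hx => ?_⟩
    · exact (hΘs.add (hΘs.comp contDiff_neg)).sub contDiff_const
    · show Θ (-x) + Θ (-(-x)) - Θ κ = Θ x + Θ (-x) - Θ κ
      rw [neg_neg]
      ring
    · show Θ x + Θ (-x) - Θ κ = 0
      rcases abs_cases x with ⟨h1, h2⟩ | ⟨h1, h2⟩
      · rw [h1] at hx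
        rw [hΘκ x hx.le, hΘ0 (-x) (by linarith)]
        ring
      · rw [h1] at hx
        rw [hΘκ (-x) hx.le, hΘ0 x h2.le]
        ring
  have hψd : ∀ x, deriv ψ x = θ x - θ (-x) := by
    intro x
    have h1 : HasDerivAt (fun x => Θ (-x)) (-θ (-x)) x := by
      have h0 := (hΘd (-x)).comp x (hasDerivAt_neg x)
      exact h0.congr_deriv (by ring)
    have h2 : HasDerivAt ψ (θ x + -θ (-x)) x := ((hΘd x).add h1).sub_const _
    rw [h2.deriv]
    ring
  have h1 := h ψ hT
  simp_rw [hψd] at h1
  have i1 : Integrable fun α => G α * θ α := by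
    have := hloc.integrable_smul_left_of_hasCompactSupport hc hθc
    refine this.congr (Eventually.of_forall fun x => ?_)
    show θ x • G x = G x * θ x
    rw [smul_eq_mul, mul_comm]
  have i2 : Integrable fun α => G α * θ (-α) := by
    have := i1.comp_neg.neg
    refine this.congr (Eventually.of_forall fun x => ?_)
    show -(G (-x) * θ (-x)) = G x * θ (-x)
    rw [hodd]
    ring
  have h2 : ∫ α, G α * (θ α - θ (-α)) = (∫ α, G α * θ α) - ∫ α, G α * θ (-α) := by
    rw [← integral_sub i1 i2]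
    refine integral_congr_ae (Eventually.of_forall fun x => ?_)
    show G x * (θ x - θ (-x)) = G x * θ x - G x * θ (-x)
    ring
  have h3 : ∫ α, G α * θ (-α) = -∫ α, G α * θ α := by
    rw [← integral_neg_eq_self (fun α => G α * θ (-α)) volume, ← integral_neg]
    refine integral_congr_ae (Eventually.of_forall fun x => ?_)
    show G (-x) * θ (-(-x)) = -(G x * θ x)
    rw [hodd, neg_neg]
    ring
  rw [h2, h3] at h1
  have h4 : ∫ x, θ x • G x = ∫ α, G α * θ α := by
    refine integral_congr_ae (Eventually.of_forall fun x => ?_)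
    show θ x • G x = G x * θ x
    rw [smul_eq_mul, mul_comm]
  rw [h4]
  linarith

lemma Pg_cont {x : ℝ} (hx : 0 < x) : ContinuousAt Pg x := Pg_contAt hx

lemma Pg_bound (s : ℝ) : |Pg s| ≤ 1 * (1 + s ^ 2) := by
  have h0 : ∀ s, 0 ≤ s → |Pg s| ≤ 1 * (1 + s ^ 2) := by
    intro s hs
    rcases hs.eq_or_lt with rfl | hs
    · rw [Pg_zero, abs_zero]
      positivity
    · have h1 := Mp_lip hs.le
      have h2 := Mp_mono hs.le
      rw [Mp_zero] at h1 h2
      rw [Pg_pos hs, abs_of_nonneg (by linarith)]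
      nlinarith [sq_nonneg (s - 1)]
  rcases le_total 0 s with hs | hs
  · exact h0 s hs
  · have := h0 (-s) (by linarith)
    rw [Pg_odd, abs_neg, neg_sq] at this
    exact this

/-- from almost everywhere to everywhere -/
lemma eq_of_ae {Φ : ℝ → ℝ} (hΦ : Monotone Φ) {c : ℝ}
    (h : ∀ᵐ x, x ∈ Set.Ioo 0 c → Φ x = Pg x) : ∀ x, 0 < x → x < c → Φ x = Pg x := by
  have hd : Dense {x | x ∈ Set.Ioo 0 c → Φ x = Pg x} := Measure.dense_of_ae h
  intro x hx hxc
  refine le_antisymm ?_ ?_
  · refine le_of_forall_pos_le_add fun ε hε => ?_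
    have h1 : ∀ᶠ y in 𝓝 x, Pg y < Pg x + ε := (Pg_cont hx).eventually_lt_const (by linarith)
    obtain ⟨δ, hδ, h2⟩ := Metric.eventually_nhds_iff.1 h1
    obtain ⟨y, hy, hy1, hy2⟩ := hd.exists_between (show x < min c (x + δ) from
      lt_min hxc (by linarith))
    have hyc : y < c := hy2.trans_le (min_le_left _ _)
    have hyδ : y < x + δ := hy2.trans_le (min_le_right _ _)
    have h3 := h2 (show dist y x < δ by rw [Real.dist_eq, abs_lt]; constructor <;> linarith)
    have h4 := hy ⟨by linarith, hyc⟩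
    have h5 := hΦ hy1.le
    linarith
  · refine le_of_forall_pos_le_add fun ε hε => ?_
    have h1 : ∀ᶠ y in 𝓝 x, Pg x - ε < Pg y := (Pg_cont hx).eventually_const_lt (by linarith)
    obtain ⟨δ, hδ, h2⟩ := Metric.eventually_nhds_iff.1 h1
    obtain ⟨y, hy, hy1, hy2⟩ := hd.exists_between (show max 0 (x - δ) < x from
      max_lt hx (by linarith))
    have hy0 : 0 < y := (le_max_left _ _).trans_lt hy1
    have hyδ : x - δ < y := (le_max_right _ _).trans_lt hy1
    have h3 := h2 (show dist y x < δ by rw [Real.dist_eq, abs_lt]; constructor <;> linarith)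
    have h4 := hy ⟨hy0, by linarith⟩
    have h5 := hΦ hy2.le
    linarith

/-- integrability against the derivatives of the test functions -/
lemma int_test {F : ℝ → ℝ} {C : ℝ} (hF : Measurable F) (hb : ∀ s, |F s| ≤ C * (1 + s ^ 2))
    {κ : ℝ} {ψ : ℝ → ℝ} (hψ : TK κ ψ) : Integrable fun α => F α * deriv ψ α := by
  have hs1 := TK.deriv_smooth hψ.smooth
  have hc1 : HasCompactSupport (deriv ψ) := hψ.hcs.deriv
  have hloc : LocallyIntegrable F := by
    have hc : LocallyIntegrable (fun s : ℝ => C * (1 + s ^ 2)) :=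
      (by fun_prop : Continuous fun s : ℝ => C * (1 + s ^ 2)).locallyIntegrable
    refine hc.mono hF.aestronglyMeasurable (Eventually.of_forall fun x => ?_)
    rw [Real.norm_eq_abs, Real.norm_eq_abs]
    exact (hb x).trans (le_abs_self _)
  have := hloc.integrable_smul_left_of_hasCompactSupport hs1.continuous hc1
  refine this.congr (Eventually.of_forall fun x => ?_)
  show deriv ψ x • F x = F x * deriv ψ x
  rw [smul_eq_mul, mul_comm]

variable {A' Φ : ℝ → ℝ} {C0 C1 C2 : ℝ}

/-- equality of the integrals gives equality of the functions -/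
lemma Pair.eq_of_int (h : Pair A' Φ C0 C1 C2) {κ : ℝ}
    (hi : ∀ ψ, TK κ ψ → ∫ α, Φ α * deriv ψ α = ∫ α, Pg α * deriv ψ α) :
    ∀ x, 0 < x → x < κ → Φ x = Pg x := by
  have hint : ∀ (F : ℝ → ℝ) (C : ℝ), Measurable F → (∀ s, |F s| ≤ C * (1 + s ^ 2)) →
      ∀ ψ, TK κ ψ → Integrable fun α => F α * deriv ψ α := by
    intro F C hF hb ψ hψ
    have hs1 := TK.deriv_smooth hψ.smooth
    have hc1 : HasCompactSupport (deriv ψ) := hψ.hcs.deriv
    have hloc : LocallyIntegrable F := by
      have hc : LocallyIntegrable (fun s : ℝ => C * (1 + s ^ 2)) :=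
        (by fun_prop : Continuous fun s : ℝ => C * (1 + s ^ 2)).locallyIntegrable
      refine hc.mono hF.aestronglyMeasurable (Eventually.of_forall fun x => ?_)
      rw [Real.norm_eq_abs, Real.norm_eq_abs]
      exact (hb x).trans (le_abs_self _)
    have := hloc.integrable_smul_left_of_hasCompactSupport hs1.continuous hc1
    refine this.congr (Eventually.of_forall fun x => ?_)
    show deriv ψ x • F x = F x * deriv ψ x
    rw [smul_eq_mul, mul_comm]
  refine eq_of_ae h.mono ?_
  have h1 := ae_zero (G := fun s => Φ s - Pg s) (C := C1 + 1) (κ := κ) (fun s => by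
    show Φ (-s) - Pg (-s) = -(Φ s - Pg s)
    rw [h.odd, Pg_odd]
    ring) (h.mono.measurable.sub Pg_mono.measurable) (fun s => by
    have := h.bd s
    have := Pg_bound s
    refine (abs_sub _ _).trans ?_
    linarith) (fun ψ hψ => by
    have e : ∫ α, (Φ α - Pg α) * deriv ψ α = (∫ α, Φ α * deriv ψ α) -
        ∫ α, Pg α * deriv ψ α := by
      rw [← integral_sub (hint Φ C1 h.mono.measurable h.bd ψ hψ)
        (hint Pg 1 Pg_mono.measurable Pg_bound ψ hψ)]
      refine integral_congr_ae (Eventually.of_forall fun x => ?_)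
      show (Φ x - Pg x) * deriv ψ x = Φ x * deriv ψ x - Pg x * deriv ψ x
      ring
    rw [e, hi ψ hψ, sub_self])
  filter_upwards [h1] with x hx hx1
  have := hx hx1
  linarith

/-- **Montgomery's theorem for the limit** -/
lemma Pair.small (h : Pair A' Φ C0 C1 C2) : ∀ x, 0 < x → x < 1 → Φ x = Pg x := by
  intro x hx hx1
  set κ : ℝ := (x + 1) / 2 with hκ
  have hκ0 : 0 < κ := by rw [hκ]; linarith
  have hκ1 : κ < 1 := by rw [hκ]; linarith
  refine h.eq_of_int (κ := κ) (fun ψ hψ => ?_) x hx (by rw [hκ]; linarith)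
  obtain ⟨K, t, ht, hK, rfl⟩ := exists_Kav hκ0 hψ
  rw [← h.link κ K t hK ht, ← gue_link hK ht]
  exact (h.lim κ hκ0 hκ1).mont K hK t ht

/-- the counting function determines Montgomery's function -/
lemma Pair.Phi_of_A (h : Pair A' Φ C0 C1 C2) (hA : ∀ y, A' y = AG y) :
    ∀ x, 0 < x → Φ x = Pg x := by
  intro x hx
  refine h.eq_of_int (κ := x + 1) (fun ψ hψ => ?_) x hx (by linarith)
  obtain ⟨K, t, ht, hK, rfl⟩ := exists_Kav (by linarith) hψ
  rw [← h.link _ K t hK ht, ← gue_link hK ht]
  have : A' = AG := funext hA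
  rw [this]

lemma Pair.all (h : Pair A' Φ C0 C1 C2) (hΦ : ∀ x, 0 < x → Φ x = Pg x) (x : ℝ) : Φ x = Pg x := by
  rcases lt_trichotomy x 0 with hx | rfl | hx
  · have := hΦ (-x) (by linarith)
    rw [h.odd, Pg_odd] at this
    linarith
  · have := h.odd 0
    rw [neg_zero] at this
    rw [Pg_zero]
    linarith
  · exact hΦ x hx

/-- the approximate identity -/
lemma approx_gen {E k : ℝ → ℝ} (hm : Measurable E) {C : ℝ} (hb : ∀ x, |E x| ≤ C * (1 + x ^ 2))
    (hk : Measurable k) {D : ℝ} (hD : ∀ u, |k u| ≤ D / (1 + u ^ 2) ^ 2) (hk0 : ∫ u, k u ≠ 0) {t : ℝ}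
    (h1 : ∀ n : ℕ, ∫ u, E (u / (n + 1) + t) * k u = 0) (ht : ContinuousAt E t) : E t = 0 := by
  have hC : 0 ≤ C := by
    have := (abs_nonneg _).trans (hb 0)
    simpa using this
  have hD0 : 0 ≤ D := by
    have := (abs_nonneg _).trans (hD 0)
    simpa using this
  have hlim : Tendsto (fun n : ℕ => ∫ u, E (u / (n + 1) + t) * k u) atTop
      (𝓝 (∫ u, E t * k u)) := by
    have hbi : Integrable fun u : ℝ => C * (2 * (1 + t ^ 2)) * D * (1 + u ^ 2)⁻¹ :=
      integrable_inv_one_add_sq.const_mul _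
    refine tendsto_integral_of_dominated_convergence _ (fun n => ?_) hbi (fun n => ?_) ?_
    · exact ((hm.comp (by fun_prop)).mul hk).aestronglyMeasurable
    · refine Eventually.of_forall fun u => ?_
      rw [Real.norm_eq_abs, abs_mul]
      have hn : (1 : ℝ) ≤ n + 1 := by
        have : (0 : ℝ) ≤ n := Nat.cast_nonneg n
        linarith
      have h6 : (u / (n + 1)) ^ 2 ≤ u ^ 2 := by
        rw [div_pow]
        exact div_le_self (sq_nonneg u) (one_le_pow₀ hn)
      have h7 : 1 + (u / (n + 1) + t) ^ 2 ≤ 2 * (1 + t ^ 2) * (1 + u ^ 2) := by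
        set v := u / (n + 1) with hv
        nlinarith [sq_nonneg (v - t), sq_nonneg (t * u), sq_nonneg t, sq_nonneg u]
      calc |E (u / (n + 1) + t)| * |k u| ≤ (C * (1 + (u / (n + 1) + t) ^ 2)) *
            (D / (1 + u ^ 2) ^ 2) := mul_le_mul (hb _) (hD u) (abs_nonneg _) (by positivity)
        _ ≤ (C * (2 * (1 + t ^ 2) * (1 + u ^ 2))) * (D / (1 + u ^ 2) ^ 2) := by
            refine mul_le_mul_of_nonneg_right (mul_le_mul_of_nonneg_left h7 hC) (by positivity)
        _ = C * (2 * (1 + t ^ 2)) * D * (1 + u ^ 2)⁻¹ := by field_simp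
    · refine Eventually.of_forall fun u => ?_
      have h8 : Tendsto (fun n : ℕ => u / ((n : ℝ) + 1) + t) atTop (𝓝 t) := by
        have h9 : Tendsto (fun n : ℕ => u * (1 / ((n : ℝ) + 1))) atTop (𝓝 (u * 0)) :=
          tendsto_one_div_add_atTop_nhds_zero_nat.const_mul u
        rw [mul_zero] at h9
        have := h9.add_const t
        rw [zero_add] at this
        refine this.congr fun n => ?_
        ring
      exact (ht.tendsto.comp h8).mul_const _
  simp_rw [h1] at hlim
  have h2 := tendsto_nhds_unique hlim tendsto_const_nhds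
  rw [integral_const_mul] at h2
  exact (mul_eq_zero.1 h2).resolve_right hk0

/-- the approximate identity for the transforms -/
lemma approx {E : ℝ → ℝ} (hm : Measurable E) {C : ℝ} (hb : ∀ x, |E x| ≤ C * (1 + x ^ 2))
    (h0 : ∀ κ K, 0 < κ → TK κ K → ∀ t, ∫ y, E (y + t) * ct K y = 0) {t : ℝ}
    (ht : ContinuousAt E t) : E t = 0 := by
  obtain ⟨K, hK, hpos, hK0, hle⟩ := exists_pos one_pos
  obtain ⟨D, hD0, hD⟩ := hK.decay 2
  have hci := ct_integrable hK
  refine approx_gen hm hb hK.ct_cont.measurable hD ?_ (fun n => ?_) ht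
  · have h3 : 0 < ∫ u, ct K u := by
      rw [integral_pos_iff_support_of_nonneg hpos hci]
      have hop : IsOpen (Function.support (ct K)) := isOpen_ne.preimage hK.ct_cont
      exact hop.measure_pos volume ⟨0, hK0.ne'⟩
    exact h3.ne'
  · have hn : (0 : ℝ) < n + 1 := by positivity
    have h2 := h0 _ _ (by positivity) (hK.dil hn) t
    simp_rw [TK.ct_dil K hn] at h2
    have h3 := Measure.integral_comp_mul_left (fun u => E (u / (n + 1) + t) * ct K u) ((n : ℝ) + 1)
    have h4 : ∀ y : ℝ, ((n : ℝ) + 1) * y / (n + 1) = y := fun y => by field_simp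
    simp only [h4] at h3
    rw [h2, smul_eq_mul] at h3
    have h5 : |((n : ℝ) + 1)⁻¹| ≠ 0 := by positivity
    exact ((mul_eq_zero.1 h3.symm).resolve_left h5)

/-- Montgomery's function determines the counting function -/
lemma Pair.A_of_Phi (h : Pair A' Φ C0 C1 C2) (hΦ : ∀ x, 0 < x → Φ x = Pg x) (y : ℝ) :
    A' y = AG y := by
  have hl := h.lim (1 / 2) (by norm_num) (by norm_num)
  have hL : ∀ κ, 0 < κ → Lim κ A' C0 := by
    intro κ hκ
    refine ⟨hl.mono, hl.neg, hl.bd, hl.one, fun K hK t ht => ?_⟩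
    rw [h.link κ K t hK ht, gue_link hK ht]
    refine integral_congr_ae (Eventually.of_forall fun x => ?_)
    show Φ x * _ = Pg x * _
    rw [h.all hΦ]
  have hz : ∀ t, ContinuousAt (dE A') t → dE A' t = 0 := fun t ht =>
    approx hl.meas (dE_bound hl.bd) (fun κ K hκ hK t => (hL κ hκ).conv_zero hK t) ht
  have hae : ∀ᵐ x, dE A' x = 0 := by
    have h1 : ∀ᵐ x, ContinuousAt (fun x => dE A' x + 2 * gp x) x := by
      have := hl.E_mono.countable_not_continuousAt
      exact this.ae_notMem volume |>.mono fun x hx => by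
        by_contra hc
        exact hx hc
    filter_upwards [h1] with x hx
    refine hz x ?_
    have h2 : ContinuousAt (fun x => 2 * gp x) x :=
      continuousAt_const.mul gp_cont.continuousAt
    have h3 := hx.sub h2
    refine h3.congr (Eventually.of_forall fun y => ?_)
    show dE A' y + 2 * gp y - 2 * gp y = dE A' y
    ring
  have hper : ∀ l : ℝ, ∀ᵐ x, dE A' (x + l) = dE A' x := by
    intro l
    have h1 := (measurePreserving_add_right (volume : Measure ℝ) l).quasiMeasurePreserving.ae hae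
    filter_upwards [hae, h1] with x hx hx1
    rw [hx, hx1]
  exact limit_eq hl.mono hl.neg hl.bd hl.one (l1 := √2) (l2 := 1) (by
    rw [div_one]
    exact irrational_sqrt_two) (hper _) (hper _) y

end Pool.Agent.W2helper22.UB
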